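import Pool.Agent.Helper79.P2.EDLst

/-! # MP_2b6189_al: dimensions divisible by `4`, the search, `8 k` -/

set_option autoImplicit false
set_option maxRecDepth 100000

namespace Pool.Agent.Helper79.P2.ED

theorem a3_472 : Ok6 psB E8 3 8 472 572 :=
  of6 (c := 100) (by decide +kernel) rfl
theorem a3_572 : Ok6 psB E8 3 8 572 672 :=
  of6 (c := 100) (by decide +kernel) rfl
theorem a3_672 : Ok6 psB E8 3 8 672 772 :=
  of6 (c := 100) (by decide +kernel) rfl
theorem a3_772 : Ok6 psB E8 3 8 772 872 :=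
  of6 (c := 100) (by decide +kernel) rfl
theorem a3_872 : Ok6 psB E8 3 8 872 972 :=
  of6 (c := 100) (by decide +kernel) rfl
theorem a3_972 : Ok6 psB E8 3 8 972 1072 :=
  of6 (c := 100) (by decide +kernel) rfl
theorem a3_1072 : Ok6 psB E8 3 8 1072 1172 :=
  of6 (c := 100) (by decide +kernel) rfl
theorem a3_1172 : Ok6 psB E8 3 8 1172 1272 :=
  of6 (c := 100) (by decide +kernel) rfl
theorem a3_1272 : Ok6 psB E8 3 8 1272 1372 :=
  of6 (c := 100) (by decide +kernel) rfl
theorem a3_1372 : Ok6 psB E8 3 8 1372 1472 :=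
  of6 (c := 100) (by decide +kernel) rfl
theorem a3_1472 : Ok6 psB E8 3 8 1472 1572 :=
  of6 (c := 100) (by decide +kernel) rfl
theorem a3_1572 : Ok6 psB E8 3 8 1572 1672 :=
  of6 (c := 100) (by decide +kernel) rfl
theorem a3_1672 : Ok6 psB E8 3 8 1672 1772 :=
  of6 (c := 100) (by decide +kernel) rfl
theorem a3_1772 : Ok6 psB E8 3 8 1772 1872 :=
  of6 (c := 100) (by decide +kernel) rfl
theorem a3_1872 : Ok6 psB E8 3 8 1872 1972 :=
  of6 (c := 100) (by decide +kernel) rfl
theorem a3_1972 : Ok6 psB E8 3 8 1972 2072 :=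
  of6 (c := 100) (by decide +kernel) rfl
theorem a3_2072 : Ok6 psB E8 3 8 2072 2084 :=
  of6 (c := 12) (by decide +kernel) rfl

theorem a3 : Ok6 psB E8 3 8 472 2084 :=
  a3_472.trans <| a3_572.trans <| a3_672.trans <| a3_772.trans <| a3_872.trans <| a3_972.trans <|
    a3_1072.trans <| a3_1172.trans <| a3_1272.trans <| a3_1372.trans <| a3_1472.trans <|
    a3_1572.trans <| a3_1672.trans <| a3_1772.trans <| a3_1872.trans <| a3_1972.trans <| a3_2072

end Pool.Agent.Helper79.P2.ED
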