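import Pool.Agent.Helper79.P2.EDLst

/-! # MP_2b6189_al: dimensions divisible by `4`, the search, `4 k`, `9` divides `k`, part 1 -/

set_option autoImplicit false
set_option maxRecDepth 100000

namespace Pool.Agent.Helper79.P2.ED

theorem d1_315 : Ok9 psA E4 2 4 315 355 :=
  of9 (c := 40) (by decide +kernel) rfl
theorem d1_355 : Ok9 psA E4 2 4 355 395 :=
  of9 (c := 40) (by decide +kernel) rfl
theorem d1_395 : Ok9 psA E4 2 4 395 435 :=
  of9 (c := 40) (by decide +kernel) rfl
theorem d1_435 : Ok9 psA E4 2 4 435 475 :=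
  of9 (c := 40) (by decide +kernel) rfl
theorem d1_475 : Ok9 psA E4 2 4 475 515 :=
  of9 (c := 40) (by decide +kernel) rfl
theorem d1_515 : Ok9 psA E4 2 4 515 555 :=
  of9 (c := 40) (by decide +kernel) rfl
theorem d1_555 : Ok9 psA E4 2 4 555 595 :=
  of9 (c := 40) (by decide +kernel) rfl
theorem d1_595 : Ok9 psA E4 2 4 595 635 :=
  of9 (c := 40) (by decide +kernel) rfl
theorem d1_635 : Ok9 psA E4 2 4 635 675 :=
  of9 (c := 40) (by decide +kernel) rfl
theorem d1_675 : Ok9 psA E4 2 4 675 715 :=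
  of9 (c := 40) (by decide +kernel) rfl
theorem d1_715 : Ok9 psA E4 2 4 715 750 :=
  of9 (c := 35) (by decide +kernel) rfl

theorem d1 : Ok9 psA E4 2 4 315 750 :=
  d1_315.trans <| d1_355.trans <| d1_395.trans <| d1_435.trans <| d1_475.trans <| d1_515.trans <|
    d1_555.trans <| d1_595.trans <| d1_635.trans <| d1_675.trans <| d1_715

end Pool.Agent.Helper79.P2.ED
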