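import Pool.Agent.Helper79.P2.EDLst

/-! # MP_2b6189_al: dimensions divisible by `4`, the search, `4 k`, `9` divides `k`, part 2 -/

set_option autoImplicit false
set_option maxRecDepth 100000

namespace Pool.Agent.Helper79.P2.ED

theorem d2_750 : Ok9 psA E4 2 4 750 790 :=
  of9 (c := 40) (by decide +kernel) rfl
theorem d2_790 : Ok9 psA E4 2 4 790 830 :=
  of9 (c := 40) (by decide +kernel) rfl
theorem d2_830 : Ok9 psA E4 2 4 830 870 :=
  of9 (c := 40) (by decide +kernel) rfl
theorem d2_870 : Ok9 psA E4 2 4 870 910 :=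
  of9 (c := 40) (by decide +kernel) rfl
theorem d2_910 : Ok9 psA E4 2 4 910 950 :=
  of9 (c := 40) (by decide +kernel) rfl
theorem d2_950 : Ok9 psA E4 2 4 950 990 :=
  of9 (c := 40) (by decide +kernel) rfl
theorem d2_990 : Ok9 psA E4 2 4 990 1030 :=
  of9 (c := 40) (by decide +kernel) rfl
theorem d2_1030 : Ok9 psA E4 2 4 1030 1070 :=
  of9 (c := 40) (by decide +kernel) rfl
theorem d2_1070 : Ok9 psA E4 2 4 1070 1110 :=
  of9 (c := 40) (by decide +kernel) rfl
theorem d2_1110 : Ok9 psA E4 2 4 1110 1150 :=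
  of9 (c := 40) (by decide +kernel) rfl

theorem d2 : Ok9 psA E4 2 4 750 1150 :=
  d2_750.trans <| d2_790.trans <| d2_830.trans <| d2_870.trans <| d2_910.trans <| d2_950.trans <|
    d2_990.trans <| d2_1030.trans <| d2_1070.trans <| d2_1110

end Pool.Agent.Helper79.P2.ED
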