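import Pool.Agent.Helper79.P2.EDLst

/-! # MP_2b6189_al: dimensions divisible by `4`, the search, `4 k`, `9` divides `k`, part 3 -/

set_option autoImplicit false
set_option maxRecDepth 100000

namespace Pool.Agent.Helper79.P2.ED

theorem d3_1150 : Ok9 psA E4 2 4 1150 1190 :=
  of9 (c := 40) (by decide +kernel) rfl
theorem d3_1190 : Ok9 psA E4 2 4 1190 1230 :=
  of9 (c := 40) (by decide +kernel) rfl
theorem d3_1230 : Ok9 psA E4 2 4 1230 1270 :=
  of9 (c := 40) (by decide +kernel) rfl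
theorem d3_1270 : Ok9 psA E4 2 4 1270 1310 :=
  of9 (c := 40) (by decide +kernel) rfl
theorem d3_1310 : Ok9 psA E4 2 4 1310 1350 :=
  of9 (c := 40) (by decide +kernel) rfl
theorem d3_1350 : Ok9 psA E4 2 4 1350 1390 :=
  of9 (c := 40) (by decide +kernel) rfl
theorem d3_1390 : Ok9 psA E4 2 4 1390 1430 :=
  of9 (c := 40) (by decide +kernel) rfl
theorem d3_1430 : Ok9 psA E4 2 4 1430 1470 :=
  of9 (c := 40) (by decide +kernel) rfl
theorem d3_1470 : Ok9 psA E4 2 4 1470 1510 :=
  of9 (c := 40) (by decide +kernel) rfl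
theorem d3_1510 : Ok9 psA E4 2 4 1510 1550 :=
  of9 (c := 40) (by decide +kernel) rfl

theorem d3 : Ok9 psA E4 2 4 1150 1550 :=
  d3_1150.trans <| d3_1190.trans <| d3_1230.trans <| d3_1270.trans <| d3_1310.trans <|
    d3_1350.trans <| d3_1390.trans <| d3_1430.trans <| d3_1470.trans <| d3_1510

end Pool.Agent.Helper79.P2.ED
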