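import Pool.Agent.Helper79.P2.EDLst

/-! # MP_2b6189_al: dimensions divisible by `4`, the search, `2 ^ a k`, `a ≥ 5`, `9` divides `k` -/

set_option autoImplicit false
set_option maxRecDepth 100000

namespace Pool.Agent.Helper79.P2.ED

theorem b5_39 : Ok9 psC E8 5 32 39 59 :=
  of9 (c := 20) (by decide +kernel) rfl
theorem b5_59 : Ok9 psC E8 5 32 59 79 :=
  of9 (c := 20) (by decide +kernel) rfl
theorem b5_79 : Ok9 psC E8 5 32 79 99 :=
  of9 (c := 20) (by decide +kernel) rfl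
theorem b5_99 : Ok9 psC E8 5 32 99 119 :=
  of9 (c := 20) (by decide +kernel) rfl
theorem b5_119 : Ok9 psC E8 5 32 119 139 :=
  of9 (c := 20) (by decide +kernel) rfl
theorem b5_139 : Ok9 psC E8 5 32 139 159 :=
  of9 (c := 20) (by decide +kernel) rfl
theorem b5_159 : Ok9 psC E8 5 32 159 174 :=
  of9 (c := 15) (by decide +kernel) rfl

theorem b5 : Ok9 psC E8 5 32 39 174 :=
  b5_39.trans <| b5_59.trans <| b5_79.trans <| b5_99.trans <| b5_119.trans <| b5_139.trans <|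
    b5_159

theorem b6_19 : Ok9 psC E8 6 64 19 39 :=
  of9 (c := 20) (by decide +kernel) rfl
theorem b6_39 : Ok9 psC E8 6 64 39 59 :=
  of9 (c := 20) (by decide +kernel) rfl
theorem b6_59 : Ok9 psC E8 6 64 59 79 :=
  of9 (c := 20) (by decide +kernel) rfl
theorem b6_79 : Ok9 psC E8 6 64 79 87 :=
  of9 (c := 8) (by decide +kernel) rfl

theorem b6 : Ok9 psC E8 6 64 19 87 :=
  b6_19.trans <| b6_39.trans <| b6_59.trans <| b6_79

theorem b7_9 : Ok9 psC E8 7 128 9 29 :=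
  of9 (c := 20) (by decide +kernel) rfl
theorem b7_29 : Ok9 psC E8 7 128 29 44 :=
  of9 (c := 15) (by decide +kernel) rfl

theorem b7 : Ok9 psC E8 7 128 9 44 :=
  b7_9.trans <| b7_29

theorem b8_4 : Ok9 psC E8 8 256 4 22 :=
  of9 (c := 18) (by decide +kernel) rfl

theorem b8 : Ok9 psC E8 8 256 4 22 :=
  b8_4

theorem b9_2 : Ok9 psC E8 9 512 2 11 :=
  of9 (c := 9) (by decide +kernel) rfl

theorem b9 : Ok9 psC E8 9 512 2 11 :=
  b9_2

theorem b10_1 : Ok9 psC E8 10 1024 1 6 :=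
  of9 (c := 5) (by decide +kernel) rfl

theorem b10 : Ok9 psC E8 10 1024 1 6 :=
  b10_1

theorem b11_0 : Ok9 psC E8 11 2048 0 3 :=
  of9 (c := 3) (by decide +kernel) rfl

theorem b11 : Ok9 psC E8 11 2048 0 3 :=
  b11_0

theorem b12_0 : Ok9 psC E8 12 4096 0 2 :=
  of9 (c := 2) (by decide +kernel) rfl

theorem b12 : Ok9 psC E8 12 4096 0 2 :=
  b12_0

theorem b13_0 : Ok9 psC E8 13 8192 0 1 :=
  of9 (c := 1) (by decide +kernel) rfl

theorem b13 : Ok9 psC E8 13 8192 0 1 :=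
  b13_0

theorem b14_0 : Ok9 psC E8 14 16384 0 1 :=
  of9 (c := 1) (by decide +kernel) rfl

theorem b14 : Ok9 psC E8 14 16384 0 1 :=
  b14_0

theorem b15_0 : Ok9 psC E8 15 32768 0 1 :=
  of9 (c := 1) (by decide +kernel) rfl

theorem b15 : Ok9 psC E8 15 32768 0 1 :=
  b15_0

theorem b16_0 : Ok9 psC E8 16 65536 0 1 :=
  of9 (c := 1) (by decide +kernel) rfl

theorem b16 : Ok9 psC E8 16 65536 0 1 :=
  b16_0

end Pool.Agent.Helper79.P2.ED
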