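import Pool.Agent.Helper79.P2.EDLst

/-! # MP_2b6189_al: dimensions divisible by `4`, the search, `4 k`, `9` divides `k`, part 4 -/

set_option autoImplicit false
set_option maxRecDepth 100000

namespace Pool.Agent.Helper79.P2.ED

theorem d4_1550 : Ok9 psA E4 2 4 1550 1590 :=
  of9 (c := 40) (by decide +kernel) rfl
theorem d4_1590 : Ok9 psA E4 2 4 1590 1630 :=
  of9 (c := 40) (by decide +kernel) rfl
theorem d4_1630 : Ok9 psA E4 2 4 1630 1670 :=
  of9 (c := 40) (by decide +kernel) rfl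
theorem d4_1670 : Ok9 psA E4 2 4 1670 1710 :=
  of9 (c := 40) (by decide +kernel) rfl
theorem d4_1710 : Ok9 psA E4 2 4 1710 1750 :=
  of9 (c := 40) (by decide +kernel) rfl
theorem d4_1750 : Ok9 psA E4 2 4 1750 1790 :=
  of9 (c := 40) (by decide +kernel) rfl
theorem d4_1790 : Ok9 psA E4 2 4 1790 1830 :=
  of9 (c := 40) (by decide +kernel) rfl
theorem d4_1830 : Ok9 psA E4 2 4 1830 1870 :=
  of9 (c := 40) (by decide +kernel) rfl
theorem d4_1870 : Ok9 psA E4 2 4 1870 1910 :=
  of9 (c := 40) (by decide +kernel) rfl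
theorem d4_1910 : Ok9 psA E4 2 4 1910 1950 :=
  of9 (c := 40) (by decide +kernel) rfl

theorem d4 : Ok9 psA E4 2 4 1550 1950 :=
  d4_1550.trans <| d4_1590.trans <| d4_1630.trans <| d4_1670.trans <| d4_1710.trans <|
    d4_1750.trans <| d4_1790.trans <| d4_1830.trans <| d4_1870.trans <| d4_1910

end Pool.Agent.Helper79.P2.ED
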