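import Pool.Agent.Helper79.P2.EDLst

/-! # MP_2b6189_al: dimensions divisible by `4`, the search, `4 k`, `9` divides `k`, part 5 -/

set_option autoImplicit false
set_option maxRecDepth 100000

namespace Pool.Agent.Helper79.P2.ED

theorem d5_1950 : Ok9 psA E4 2 4 1950 1990 :=
  of9 (c := 40) (by decide +kernel) rfl
theorem d5_1990 : Ok9 psA E4 2 4 1990 2030 :=
  of9 (c := 40) (by decide +kernel) rfl
theorem d5_2030 : Ok9 psA E4 2 4 2030 2070 :=
  of9 (c := 40) (by decide +kernel) rfl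
theorem d5_2070 : Ok9 psA E4 2 4 2070 2110 :=
  of9 (c := 40) (by decide +kernel) rfl
theorem d5_2110 : Ok9 psA E4 2 4 2110 2150 :=
  of9 (c := 40) (by decide +kernel) rfl
theorem d5_2150 : Ok9 psA E4 2 4 2150 2190 :=
  of9 (c := 40) (by decide +kernel) rfl
theorem d5_2190 : Ok9 psA E4 2 4 2190 2230 :=
  of9 (c := 40) (by decide +kernel) rfl
theorem d5_2230 : Ok9 psA E4 2 4 2230 2270 :=
  of9 (c := 40) (by decide +kernel) rfl
theorem d5_2270 : Ok9 psA E4 2 4 2270 2310 :=
  of9 (c := 40) (by decide +kernel) rfl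
theorem d5_2310 : Ok9 psA E4 2 4 2310 2350 :=
  of9 (c := 40) (by decide +kernel) rfl

theorem d5 : Ok9 psA E4 2 4 1950 2350 :=
  d5_1950.trans <| d5_1990.trans <| d5_2030.trans <| d5_2070.trans <| d5_2110.trans <|
    d5_2150.trans <| d5_2190.trans <| d5_2230.trans <| d5_2270.trans <| d5_2310

end Pool.Agent.Helper79.P2.ED
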