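import Pool.Agent.Helper79.P2.EDLst

/-! # MP_2b6189_al: dimensions divisible by `4`, the search, `4 k`, `9` divides `k`, part 6 -/

set_option autoImplicit false
set_option maxRecDepth 100000

namespace Pool.Agent.Helper79.P2.ED

theorem d6_2350 : Ok9 psA E4 2 4 2350 2370 :=
  of9 (c := 20) (by decide +kernel) rfl
theorem d6_2370 : Ok9 psA E4 2 4 2370 2390 :=
  of9 (c := 20) (by decide +kernel) rfl
theorem d6_2390 : Ok9 psA E4 2 4 2390 2410 :=
  of9 (c := 20) (by decide +kernel) rfl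
theorem d6_2410 : Ok9 psA E4 2 4 2410 2430 :=
  of9 (c := 20) (by decide +kernel) rfl
theorem d6_2430 : Ok9 psA E4 2 4 2430 2450 :=
  of9 (c := 20) (by decide +kernel) rfl
theorem d6_2450 : Ok9 psA E4 2 4 2450 2470 :=
  of9 (c := 20) (by decide +kernel) rfl
theorem d6_2470 : Ok9 psA E4 2 4 2470 2490 :=
  of9 (c := 20) (by decide +kernel) rfl
theorem d6_2490 : Ok9 psA E4 2 4 2490 2510 :=
  of9 (c := 20) (by decide +kernel) rfl
theorem d6_2510 : Ok9 psA E4 2 4 2510 2530 :=
  of9 (c := 20) (by decide +kernel) rfl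
theorem d6_2530 : Ok9 psA E4 2 4 2530 2550 :=
  of9 (c := 20) (by decide +kernel) rfl

theorem d6 : Ok9 psA E4 2 4 2350 2550 :=
  d6_2350.trans <| d6_2370.trans <| d6_2390.trans <| d6_2410.trans <| d6_2430.trans <|
    d6_2450.trans <| d6_2470.trans <| d6_2490.trans <| d6_2510.trans <| d6_2530

end Pool.Agent.Helper79.P2.ED
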