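import Pool.Agent.Helper79.P2.EDLst

/-! # MP_2b6189_al: dimensions divisible by `4`, the search, `4 k`, `9` divides `k`, part 7 -/

set_option autoImplicit false
set_option maxRecDepth 100000

namespace Pool.Agent.Helper79.P2.ED

theorem d7_2550 : Ok9 psA E4 2 4 2550 2570 :=
  of9 (c := 20) (by decide +kernel) rfl
theorem d7_2570 : Ok9 psA E4 2 4 2570 2590 :=
  of9 (c := 20) (by decide +kernel) rfl
theorem d7_2590 : Ok9 psA E4 2 4 2590 2610 :=
  of9 (c := 20) (by decide +kernel) rfl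
theorem d7_2610 : Ok9 psA E4 2 4 2610 2630 :=
  of9 (c := 20) (by decide +kernel) rfl
theorem d7_2630 : Ok9 psA E4 2 4 2630 2650 :=
  of9 (c := 20) (by decide +kernel) rfl
theorem d7_2650 : Ok9 psA E4 2 4 2650 2670 :=
  of9 (c := 20) (by decide +kernel) rfl
theorem d7_2670 : Ok9 psA E4 2 4 2670 2690 :=
  of9 (c := 20) (by decide +kernel) rfl
theorem d7_2690 : Ok9 psA E4 2 4 2690 2710 :=
  of9 (c := 20) (by decide +kernel) rfl
theorem d7_2710 : Ok9 psA E4 2 4 2710 2730 :=
  of9 (c := 20) (by decide +kernel) rfl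
theorem d7_2730 : Ok9 psA E4 2 4 2730 2750 :=
  of9 (c := 20) (by decide +kernel) rfl

theorem d7 : Ok9 psA E4 2 4 2550 2750 :=
  d7_2550.trans <| d7_2570.trans <| d7_2590.trans <| d7_2610.trans <| d7_2630.trans <|
    d7_2650.trans <| d7_2670.trans <| d7_2690.trans <| d7_2710.trans <| d7_2730

end Pool.Agent.Helper79.P2.ED
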