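import Pool.Agent.Helper79.P2.EDLst

/-! # MP_2b6189_al: dimensions divisible by `4`, the search, `4 k`, `9` divides `k`, part 8 -/

set_option autoImplicit false
set_option maxRecDepth 100000

namespace Pool.Agent.Helper79.P2.ED

theorem d8_2750 : Ok9 psA E4 2 4 2750 2790 :=
  of9 (c := 40) (by decide +kernel) rfl
theorem d8_2790 : Ok9 psA E4 2 4 2790 2830 :=
  of9 (c := 40) (by decide +kernel) rfl
theorem d8_2830 : Ok9 psA E4 2 4 2830 2870 :=
  of9 (c := 40) (by decide +kernel) rfl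
theorem d8_2870 : Ok9 psA E4 2 4 2870 2910 :=
  of9 (c := 40) (by decide +kernel) rfl
theorem d8_2910 : Ok9 psA E4 2 4 2910 2950 :=
  of9 (c := 40) (by decide +kernel) rfl
theorem d8_2950 : Ok9 psA E4 2 4 2950 2990 :=
  of9 (c := 40) (by decide +kernel) rfl
theorem d8_2990 : Ok9 psA E4 2 4 2990 3030 :=
  of9 (c := 40) (by decide +kernel) rfl
theorem d8_3030 : Ok9 psA E4 2 4 3030 3070 :=
  of9 (c := 40) (by decide +kernel) rfl
theorem d8_3070 : Ok9 psA E4 2 4 3070 3110 :=
  of9 (c := 40) (by decide +kernel) rfl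
theorem d8_3110 : Ok9 psA E4 2 4 3110 3150 :=
  of9 (c := 40) (by decide +kernel) rfl

theorem d8 : Ok9 psA E4 2 4 2750 3150 :=
  d8_2750.trans <| d8_2790.trans <| d8_2830.trans <| d8_2870.trans <| d8_2910.trans <|
    d8_2950.trans <| d8_2990.trans <| d8_3030.trans <| d8_3070.trans <| d8_3110

end Pool.Agent.Helper79.P2.ED
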