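import Pool.Agent.Helper79.P2.EDLst

/-! # MP_2b6189_al: dimensions divisible by `4`, the search, `4 k`, `9` divides `k`, part 9 -/

set_option autoImplicit false
set_option maxRecDepth 100000

namespace Pool.Agent.Helper79.P2.ED

theorem d9_3150 : Ok9 psA E4 2 4 3150 3170 :=
  of9 (c := 20) (by decide +kernel) rfl
theorem d9_3170 : Ok9 psA E4 2 4 3170 3190 :=
  of9 (c := 20) (by decide +kernel) rfl
theorem d9_3190 : Ok9 psA E4 2 4 3190 3210 :=
  of9 (c := 20) (by decide +kernel) rfl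
theorem d9_3210 : Ok9 psA E4 2 4 3210 3230 :=
  of9 (c := 20) (by decide +kernel) rfl
theorem d9_3230 : Ok9 psA E4 2 4 3230 3250 :=
  of9 (c := 20) (by decide +kernel) rfl
theorem d9_3250 : Ok9 psA E4 2 4 3250 3270 :=
  of9 (c := 20) (by decide +kernel) rfl
theorem d9_3270 : Ok9 psA E4 2 4 3270 3290 :=
  of9 (c := 20) (by decide +kernel) rfl
theorem d9_3290 : Ok9 psA E4 2 4 3290 3310 :=
  of9 (c := 20) (by decide +kernel) rfl
theorem d9_3310 : Ok9 psA E4 2 4 3310 3320 :=
  of9 (c := 10) (by decide +kernel) rfl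

theorem d9 : Ok9 psA E4 2 4 3150 3320 :=
  d9_3150.trans <| d9_3170.trans <| d9_3190.trans <| d9_3210.trans <| d9_3230.trans <|
    d9_3250.trans <| d9_3270.trans <| d9_3290.trans <| d9_3310

end Pool.Agent.Helper79.P2.ED
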