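import Pool.Agent.Helper79.P2.EDLst

/-! # MP_2b6189_al: dimensions divisible by `4`, the search, `8 k`, `9` divides `k` -/

set_option autoImplicit false
set_option maxRecDepth 100000

namespace Pool.Agent.Helper79.P2.ED

theorem b3_157 : Ok9 psB E8 3 8 157 187 :=
  of9 (c := 30) (by decide +kernel) rfl
theorem b3_187 : Ok9 psB E8 3 8 187 217 :=
  of9 (c := 30) (by decide +kernel) rfl
theorem b3_217 : Ok9 psB E8 3 8 217 247 :=
  of9 (c := 30) (by decide +kernel) rfl
theorem b3_247 : Ok9 psB E8 3 8 247 277 :=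
  of9 (c := 30) (by decide +kernel) rfl
theorem b3_277 : Ok9 psB E8 3 8 277 307 :=
  of9 (c := 30) (by decide +kernel) rfl
theorem b3_307 : Ok9 psB E8 3 8 307 337 :=
  of9 (c := 30) (by decide +kernel) rfl
theorem b3_337 : Ok9 psB E8 3 8 337 367 :=
  of9 (c := 30) (by decide +kernel) rfl
theorem b3_367 : Ok9 psB E8 3 8 367 397 :=
  of9 (c := 30) (by decide +kernel) rfl
theorem b3_397 : Ok9 psB E8 3 8 397 427 :=
  of9 (c := 30) (by decide +kernel) rfl
theorem b3_427 : Ok9 psB E8 3 8 427 457 :=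
  of9 (c := 30) (by decide +kernel) rfl
theorem b3_457 : Ok9 psB E8 3 8 457 487 :=
  of9 (c := 30) (by decide +kernel) rfl
theorem b3_487 : Ok9 psB E8 3 8 487 517 :=
  of9 (c := 30) (by decide +kernel) rfl
theorem b3_517 : Ok9 psB E8 3 8 517 547 :=
  of9 (c := 30) (by decide +kernel) rfl
theorem b3_547 : Ok9 psB E8 3 8 547 577 :=
  of9 (c := 30) (by decide +kernel) rfl
theorem b3_577 : Ok9 psB E8 3 8 577 607 :=
  of9 (c := 30) (by decide +kernel) rfl
theorem b3_607 : Ok9 psB E8 3 8 607 637 :=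
  of9 (c := 30) (by decide +kernel) rfl
theorem b3_637 : Ok9 psB E8 3 8 637 667 :=
  of9 (c := 30) (by decide +kernel) rfl
theorem b3_667 : Ok9 psB E8 3 8 667 695 :=
  of9 (c := 28) (by decide +kernel) rfl

theorem b3 : Ok9 psB E8 3 8 157 695 :=
  b3_157.trans <| b3_187.trans <| b3_217.trans <| b3_247.trans <| b3_277.trans <| b3_307.trans <|
    b3_337.trans <| b3_367.trans <| b3_397.trans <| b3_427.trans <| b3_457.trans <| b3_487.trans
    <| b3_517.trans <| b3_547.trans <| b3_577.trans <| b3_607.trans <| b3_637.trans <| b3_667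

end Pool.Agent.Helper79.P2.ED
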