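import Pool.Agent.Helper79.P2.EDLst

/-! # MP_2b6189_al: dimensions divisible by `4`, the search, `4 k`, `9` divides `k`, part 10 -/

set_option autoImplicit false
set_option maxRecDepth 100000

namespace Pool.Agent.Helper79.P2.ED

theorem d10_3320 : Ok9 psA E4 2 4 3320 3360 :=
  of9 (c := 40) (by decide +kernel) rfl
theorem d10_3360 : Ok9 psA E4 2 4 3360 3400 :=
  of9 (c := 40) (by decide +kernel) rfl
theorem d10_3400 : Ok9 psA E4 2 4 3400 3440 :=
  of9 (c := 40) (by decide +kernel) rfl
theorem d10_3440 : Ok9 psA E4 2 4 3440 3480 :=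
  of9 (c := 40) (by decide +kernel) rfl
theorem d10_3480 : Ok9 psA E4 2 4 3480 3510 :=
  of9 (c := 30) (by decide +kernel) rfl

theorem d10 : Ok9 psA E4 2 4 3320 3510 :=
  d10_3320.trans <| d10_3360.trans <| d10_3400.trans <| d10_3440.trans <| d10_3480

end Pool.Agent.Helper79.P2.ED
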