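import Pool.Agent.Helper79.P2.EDLst

/-! # MP_2b6189_al: dimensions divisible by `4`, the search, `16 k` -/

set_option autoImplicit false
set_option maxRecDepth 100000

namespace Pool.Agent.Helper79.P2.ED

theorem a4_236 : Ok6 psC E8 4 16 236 296 :=
  of6 (c := 60) (by decide +kernel) rfl
theorem a4_296 : Ok6 psC E8 4 16 296 356 :=
  of6 (c := 60) (by decide +kernel) rfl
theorem a4_356 : Ok6 psC E8 4 16 356 416 :=
  of6 (c := 60) (by decide +kernel) rfl
theorem a4_416 : Ok6 psC E8 4 16 416 476 :=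
  of6 (c := 60) (by decide +kernel) rfl
theorem a4_476 : Ok6 psC E8 4 16 476 536 :=
  of6 (c := 60) (by decide +kernel) rfl
theorem a4_536 : Ok6 psC E8 4 16 536 596 :=
  of6 (c := 60) (by decide +kernel) rfl
theorem a4_596 : Ok6 psC E8 4 16 596 656 :=
  of6 (c := 60) (by decide +kernel) rfl
theorem a4_656 : Ok6 psC E8 4 16 656 716 :=
  of6 (c := 60) (by decide +kernel) rfl
theorem a4_716 : Ok6 psC E8 4 16 716 776 :=
  of6 (c := 60) (by decide +kernel) rfl
theorem a4_776 : Ok6 psC E8 4 16 776 836 :=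
  of6 (c := 60) (by decide +kernel) rfl
theorem a4_836 : Ok6 psC E8 4 16 836 896 :=
  of6 (c := 60) (by decide +kernel) rfl
theorem a4_896 : Ok6 psC E8 4 16 896 956 :=
  of6 (c := 60) (by decide +kernel) rfl
theorem a4_956 : Ok6 psC E8 4 16 956 1016 :=
  of6 (c := 60) (by decide +kernel) rfl
theorem a4_1016 : Ok6 psC E8 4 16 1016 1042 :=
  of6 (c := 26) (by decide +kernel) rfl

theorem a4 : Ok6 psC E8 4 16 236 1042 :=
  a4_236.trans <| a4_296.trans <| a4_356.trans <| a4_416.trans <| a4_476.trans <| a4_536.trans <|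
    a4_596.trans <| a4_656.trans <| a4_716.trans <| a4_776.trans <| a4_836.trans <| a4_896.trans
    <| a4_956.trans <| a4_1016

end Pool.Agent.Helper79.P2.ED
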