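import Pool.Agent.Helper79.P2.EDLst

/-! # MP_2b6189_al: dimensions divisible by `4`, the search, `2 ^ a k`, `a ≥ 5` -/

set_option autoImplicit false
set_option maxRecDepth 100000

namespace Pool.Agent.Helper79.P2.ED

theorem a5_118 : Ok6 psC E8 5 32 118 178 :=
  of6 (c := 60) (by decide +kernel) rfl
theorem a5_178 : Ok6 psC E8 5 32 178 238 :=
  of6 (c := 60) (by decide +kernel) rfl
theorem a5_238 : Ok6 psC E8 5 32 238 298 :=
  of6 (c := 60) (by decide +kernel) rfl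
theorem a5_298 : Ok6 psC E8 5 32 298 358 :=
  of6 (c := 60) (by decide +kernel) rfl
theorem a5_358 : Ok6 psC E8 5 32 358 418 :=
  of6 (c := 60) (by decide +kernel) rfl
theorem a5_418 : Ok6 psC E8 5 32 418 478 :=
  of6 (c := 60) (by decide +kernel) rfl
theorem a5_478 : Ok6 psC E8 5 32 478 521 :=
  of6 (c := 43) (by decide +kernel) rfl

theorem a5 : Ok6 psC E8 5 32 118 521 :=
  a5_118.trans <| a5_178.trans <| a5_238.trans <| a5_298.trans <| a5_358.trans <| a5_418.trans <|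
    a5_478

theorem a6_59 : Ok6 psC E8 6 64 59 119 :=
  of6 (c := 60) (by decide +kernel) rfl
theorem a6_119 : Ok6 psC E8 6 64 119 179 :=
  of6 (c := 60) (by decide +kernel) rfl
theorem a6_179 : Ok6 psC E8 6 64 179 239 :=
  of6 (c := 60) (by decide +kernel) rfl
theorem a6_239 : Ok6 psC E8 6 64 239 261 :=
  of6 (c := 22) (by decide +kernel) rfl

theorem a6 : Ok6 psC E8 6 64 59 261 :=
  a6_59.trans <| a6_119.trans <| a6_179.trans <| a6_239

theorem a7_29 : Ok6 psC E8 7 128 29 89 :=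
  of6 (c := 60) (by decide +kernel) rfl
theorem a7_89 : Ok6 psC E8 7 128 89 131 :=
  of6 (c := 42) (by decide +kernel) rfl

theorem a7 : Ok6 psC E8 7 128 29 131 :=
  a7_29.trans <| a7_89

theorem a8_14 : Ok6 psC E8 8 256 14 66 :=
  of6 (c := 52) (by decide +kernel) rfl

theorem a8 : Ok6 psC E8 8 256 14 66 :=
  a8_14

theorem a9_7 : Ok6 psC E8 9 512 7 33 :=
  of6 (c := 26) (by decide +kernel) rfl

theorem a9 : Ok6 psC E8 9 512 7 33 :=
  a9_7

theorem a10_3 : Ok6 psC E8 10 1024 3 17 :=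
  of6 (c := 14) (by decide +kernel) rfl

theorem a10 : Ok6 psC E8 10 1024 3 17 :=
  a10_3

theorem a11_1 : Ok6 psC E8 11 2048 1 9 :=
  of6 (c := 8) (by decide +kernel) rfl

theorem a11 : Ok6 psC E8 11 2048 1 9 :=
  a11_1

theorem a12_0 : Ok6 psC E8 12 4096 0 5 :=
  of6 (c := 5) (by decide +kernel) rfl

theorem a12 : Ok6 psC E8 12 4096 0 5 :=
  a12_0

theorem a13_0 : Ok6 psC E8 13 8192 0 3 :=
  of6 (c := 3) (by decide +kernel) rfl

theorem a13 : Ok6 psC E8 13 8192 0 3 :=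
  a13_0

theorem a14_0 : Ok6 psC E8 14 16384 0 2 :=
  of6 (c := 2) (by decide +kernel) rfl

theorem a14 : Ok6 psC E8 14 16384 0 2 :=
  a14_0

theorem a15_0 : Ok6 psC E8 15 32768 0 1 :=
  of6 (c := 1) (by decide +kernel) rfl

theorem a15 : Ok6 psC E8 15 32768 0 1 :=
  a15_0

theorem a16_0 : Ok6 psC E8 16 65536 0 1 :=
  of6 (c := 1) (by decide +kernel) rfl

theorem a16 : Ok6 psC E8 16 65536 0 1 :=
  a16_0

end Pool.Agent.Helper79.P2.ED
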