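import Pool.Agent.Helper79.P2.EDLst

/-! # MP_2b6189_al: dimensions divisible by `4`, the search, `16 k`, `9` divides `k` -/

set_option autoImplicit false
set_option maxRecDepth 100000

namespace Pool.Agent.Helper79.P2.ED

theorem b4_78 : Ok9 psC E8 4 16 78 98 :=
  of9 (c := 20) (by decide +kernel) rfl
theorem b4_98 : Ok9 psC E8 4 16 98 118 :=
  of9 (c := 20) (by decide +kernel) rfl
theorem b4_118 : Ok9 psC E8 4 16 118 138 :=
  of9 (c := 20) (by decide +kernel) rfl
theorem b4_138 : Ok9 psC E8 4 16 138 158 :=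
  of9 (c := 20) (by decide +kernel) rfl
theorem b4_158 : Ok9 psC E8 4 16 158 178 :=
  of9 (c := 20) (by decide +kernel) rfl
theorem b4_178 : Ok9 psC E8 4 16 178 198 :=
  of9 (c := 20) (by decide +kernel) rfl
theorem b4_198 : Ok9 psC E8 4 16 198 218 :=
  of9 (c := 20) (by decide +kernel) rfl
theorem b4_218 : Ok9 psC E8 4 16 218 238 :=
  of9 (c := 20) (by decide +kernel) rfl
theorem b4_238 : Ok9 psC E8 4 16 238 258 :=
  of9 (c := 20) (by decide +kernel) rfl
theorem b4_258 : Ok9 psC E8 4 16 258 278 :=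
  of9 (c := 20) (by decide +kernel) rfl
theorem b4_278 : Ok9 psC E8 4 16 278 298 :=
  of9 (c := 20) (by decide +kernel) rfl
theorem b4_298 : Ok9 psC E8 4 16 298 318 :=
  of9 (c := 20) (by decide +kernel) rfl
theorem b4_318 : Ok9 psC E8 4 16 318 338 :=
  of9 (c := 20) (by decide +kernel) rfl
theorem b4_338 : Ok9 psC E8 4 16 338 348 :=
  of9 (c := 10) (by decide +kernel) rfl

theorem b4 : Ok9 psC E8 4 16 78 348 :=
  b4_78.trans <| b4_98.trans <| b4_118.trans <| b4_138.trans <| b4_158.trans <| b4_178.trans <|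
    b4_198.trans <| b4_218.trans <| b4_238.trans <| b4_258.trans <| b4_278.trans <| b4_298.trans
    <| b4_318.trans <| b4_338

end Pool.Agent.Helper79.P2.ED
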