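import Pool.Agent.Helper79.P2.EDLst

/-! # MP_2b6189_al: dimensions divisible by `4`, the search, `4 k`, part 1 -/

set_option autoImplicit false
set_option maxRecDepth 100000

namespace Pool.Agent.Helper79.P2.ED

theorem c1_945 : Ok6 psA [] 2 4 945 1045 :=
  of6 (c := 100) (by decide +kernel) rfl
theorem c1_1045 : Ok6 psA [] 2 4 1045 1145 :=
  of6 (c := 100) (by decide +kernel) rfl
theorem c1_1145 : Ok6 psA [] 2 4 1145 1245 :=
  of6 (c := 100) (by decide +kernel) rfl
theorem c1_1245 : Ok6 psA [] 2 4 1245 1345 :=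
  of6 (c := 100) (by decide +kernel) rfl
theorem c1_1345 : Ok6 psA [] 2 4 1345 1445 :=
  of6 (c := 100) (by decide +kernel) rfl
theorem c1_1445 : Ok6 psA [] 2 4 1445 1545 :=
  of6 (c := 100) (by decide +kernel) rfl
theorem c1_1545 : Ok6 psA [] 2 4 1545 1645 :=
  of6 (c := 100) (by decide +kernel) rfl
theorem c1_1645 : Ok6 psA [] 2 4 1645 1745 :=
  of6 (c := 100) (by decide +kernel) rfl
theorem c1_1745 : Ok6 psA [] 2 4 1745 1845 :=
  of6 (c := 100) (by decide +kernel) rfl
theorem c1_1845 : Ok6 psA [] 2 4 1845 1945 :=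
  of6 (c := 100) (by decide +kernel) rfl
theorem c1_1945 : Ok6 psA [] 2 4 1945 2045 :=
  of6 (c := 100) (by decide +kernel) rfl
theorem c1_2045 : Ok6 psA [] 2 4 2045 2145 :=
  of6 (c := 100) (by decide +kernel) rfl
theorem c1_2145 : Ok6 psA [] 2 4 2145 2245 :=
  of6 (c := 100) (by decide +kernel) rfl
theorem c1_2245 : Ok6 psA [] 2 4 2245 2345 :=
  of6 (c := 100) (by decide +kernel) rfl
theorem c1_2345 : Ok6 psA [] 2 4 2345 2445 :=
  of6 (c := 100) (by decide +kernel) rfl
theorem c1_2445 : Ok6 psA [] 2 4 2445 2545 :=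
  of6 (c := 100) (by decide +kernel) rfl
theorem c1_2545 : Ok6 psA [] 2 4 2545 2645 :=
  of6 (c := 100) (by decide +kernel) rfl
theorem c1_2645 : Ok6 psA [] 2 4 2645 2745 :=
  of6 (c := 100) (by decide +kernel) rfl
theorem c1_2745 : Ok6 psA [] 2 4 2745 2845 :=
  of6 (c := 100) (by decide +kernel) rfl
theorem c1_2845 : Ok6 psA [] 2 4 2845 2945 :=
  of6 (c := 100) (by decide +kernel) rfl
theorem c1_2945 : Ok6 psA [] 2 4 2945 3045 :=
  of6 (c := 100) (by decide +kernel) rfl
theorem c1_3045 : Ok6 psA [] 2 4 3045 3145 :=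
  of6 (c := 100) (by decide +kernel) rfl
theorem c1_3145 : Ok6 psA [] 2 4 3145 3245 :=
  of6 (c := 100) (by decide +kernel) rfl
theorem c1_3245 : Ok6 psA [] 2 4 3245 3345 :=
  of6 (c := 100) (by decide +kernel) rfl
theorem c1_3345 : Ok6 psA [] 2 4 3345 3445 :=
  of6 (c := 100) (by decide +kernel) rfl
theorem c1_3445 : Ok6 psA [] 2 4 3445 3545 :=
  of6 (c := 100) (by decide +kernel) rfl
theorem c1_3545 : Ok6 psA [] 2 4 3545 3645 :=
  of6 (c := 100) (by decide +kernel) rfl
theorem c1_3645 : Ok6 psA [] 2 4 3645 3745 :=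
  of6 (c := 100) (by decide +kernel) rfl
theorem c1_3745 : Ok6 psA [] 2 4 3745 3800 :=
  of6 (c := 55) (by decide +kernel) rfl

theorem c1 : Ok6 psA [] 2 4 945 3800 :=
  c1_945.trans <| c1_1045.trans <| c1_1145.trans <| c1_1245.trans <| c1_1345.trans <|
    c1_1445.trans <| c1_1545.trans <| c1_1645.trans <| c1_1745.trans <| c1_1845.trans <|
    c1_1945.trans <| c1_2045.trans <| c1_2145.trans <| c1_2245.trans <| c1_2345.trans <|
    c1_2445.trans <| c1_2545.trans <| c1_2645.trans <| c1_2745.trans <| c1_2845.trans <|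
    c1_2945.trans <| c1_3045.trans <| c1_3145.trans <| c1_3245.trans <| c1_3345.trans <|
    c1_3445.trans <| c1_3545.trans <| c1_3645.trans <| c1_3745

end Pool.Agent.Helper79.P2.ED
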