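import Pool.Agent.Helper79.P2.EDLst

/-! # MP_2b6189_al: dimensions divisible by `4`, the search, `4 k`, part 2 -/

set_option autoImplicit false
set_option maxRecDepth 100000

namespace Pool.Agent.Helper79.P2.ED

theorem c2_3800 : Ok6 psA [] 2 4 3800 3900 :=
  of6 (c := 100) (by decide +kernel) rfl
theorem c2_3900 : Ok6 psA [] 2 4 3900 4000 :=
  of6 (c := 100) (by decide +kernel) rfl
theorem c2_4000 : Ok6 psA [] 2 4 4000 4100 :=
  of6 (c := 100) (by decide +kernel) rfl
theorem c2_4100 : Ok6 psA [] 2 4 4100 4200 :=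
  of6 (c := 100) (by decide +kernel) rfl
theorem c2_4200 : Ok6 psA [] 2 4 4200 4300 :=
  of6 (c := 100) (by decide +kernel) rfl
theorem c2_4300 : Ok6 psA [] 2 4 4300 4400 :=
  of6 (c := 100) (by decide +kernel) rfl
theorem c2_4400 : Ok6 psA [] 2 4 4400 4500 :=
  of6 (c := 100) (by decide +kernel) rfl
theorem c2_4500 : Ok6 psA [] 2 4 4500 4600 :=
  of6 (c := 100) (by decide +kernel) rfl
theorem c2_4600 : Ok6 psA [] 2 4 4600 4700 :=
  of6 (c := 100) (by decide +kernel) rfl
theorem c2_4700 : Ok6 psA [] 2 4 4700 4800 :=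
  of6 (c := 100) (by decide +kernel) rfl
theorem c2_4800 : Ok6 psA [] 2 4 4800 4900 :=
  of6 (c := 100) (by decide +kernel) rfl
theorem c2_4900 : Ok6 psA [] 2 4 4900 5000 :=
  of6 (c := 100) (by decide +kernel) rfl
theorem c2_5000 : Ok6 psA [] 2 4 5000 5100 :=
  of6 (c := 100) (by decide +kernel) rfl
theorem c2_5100 : Ok6 psA [] 2 4 5100 5200 :=
  of6 (c := 100) (by decide +kernel) rfl
theorem c2_5200 : Ok6 psA [] 2 4 5200 5300 :=
  of6 (c := 100) (by decide +kernel) rfl
theorem c2_5300 : Ok6 psA [] 2 4 5300 5400 :=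
  of6 (c := 100) (by decide +kernel) rfl
theorem c2_5400 : Ok6 psA [] 2 4 5400 5500 :=
  of6 (c := 100) (by decide +kernel) rfl
theorem c2_5500 : Ok6 psA [] 2 4 5500 5600 :=
  of6 (c := 100) (by decide +kernel) rfl
theorem c2_5600 : Ok6 psA [] 2 4 5600 5700 :=
  of6 (c := 100) (by decide +kernel) rfl
theorem c2_5700 : Ok6 psA [] 2 4 5700 5800 :=
  of6 (c := 100) (by decide +kernel) rfl
theorem c2_5800 : Ok6 psA [] 2 4 5800 5900 :=
  of6 (c := 100) (by decide +kernel) rfl
theorem c2_5900 : Ok6 psA [] 2 4 5900 6000 :=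
  of6 (c := 100) (by decide +kernel) rfl
theorem c2_6000 : Ok6 psA [] 2 4 6000 6100 :=
  of6 (c := 100) (by decide +kernel) rfl

theorem c2 : Ok6 psA [] 2 4 3800 6100 :=
  c2_3800.trans <| c2_3900.trans <| c2_4000.trans <| c2_4100.trans <| c2_4200.trans <|
    c2_4300.trans <| c2_4400.trans <| c2_4500.trans <| c2_4600.trans <| c2_4700.trans <|
    c2_4800.trans <| c2_4900.trans <| c2_5000.trans <| c2_5100.trans <| c2_5200.trans <|
    c2_5300.trans <| c2_5400.trans <| c2_5500.trans <| c2_5600.trans <| c2_5700.trans <|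
    c2_5800.trans <| c2_5900.trans <| c2_6000

end Pool.Agent.Helper79.P2.ED
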