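import Pool.Agent.Helper79.P2.EDLst

/-! # MP_2b6189_al: dimensions divisible by `4`, the search, `4 k`, part 3 -/

set_option autoImplicit false
set_option maxRecDepth 100000

namespace Pool.Agent.Helper79.P2.ED

theorem c3_6100 : Ok6 psA [] 2 4 6100 6200 :=
  of6 (c := 100) (by decide +kernel) rfl
theorem c3_6200 : Ok6 psA [] 2 4 6200 6300 :=
  of6 (c := 100) (by decide +kernel) rfl
theorem c3_6300 : Ok6 psA [] 2 4 6300 6400 :=
  of6 (c := 100) (by decide +kernel) rfl
theorem c3_6400 : Ok6 psA [] 2 4 6400 6500 :=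
  of6 (c := 100) (by decide +kernel) rfl
theorem c3_6500 : Ok6 psA [] 2 4 6500 6600 :=
  of6 (c := 100) (by decide +kernel) rfl
theorem c3_6600 : Ok6 psA [] 2 4 6600 6700 :=
  of6 (c := 100) (by decide +kernel) rfl
theorem c3_6700 : Ok6 psA [] 2 4 6700 6800 :=
  of6 (c := 100) (by decide +kernel) rfl
theorem c3_6800 : Ok6 psA [] 2 4 6800 6900 :=
  of6 (c := 100) (by decide +kernel) rfl
theorem c3_6900 : Ok6 psA [] 2 4 6900 7000 :=
  of6 (c := 100) (by decide +kernel) rfl
theorem c3_7000 : Ok6 psA [] 2 4 7000 7100 :=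
  of6 (c := 100) (by decide +kernel) rfl
theorem c3_7100 : Ok6 psA [] 2 4 7100 7200 :=
  of6 (c := 100) (by decide +kernel) rfl
theorem c3_7200 : Ok6 psA [] 2 4 7200 7300 :=
  of6 (c := 100) (by decide +kernel) rfl
theorem c3_7300 : Ok6 psA [] 2 4 7300 7400 :=
  of6 (c := 100) (by decide +kernel) rfl
theorem c3_7400 : Ok6 psA [] 2 4 7400 7500 :=
  of6 (c := 100) (by decide +kernel) rfl
theorem c3_7500 : Ok6 psA [] 2 4 7500 7600 :=
  of6 (c := 100) (by decide +kernel) rfl
theorem c3_7600 : Ok6 psA [] 2 4 7600 7700 :=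
  of6 (c := 100) (by decide +kernel) rfl
theorem c3_7700 : Ok6 psA [] 2 4 7700 7800 :=
  of6 (c := 100) (by decide +kernel) rfl
theorem c3_7800 : Ok6 psA [] 2 4 7800 7900 :=
  of6 (c := 100) (by decide +kernel) rfl
theorem c3_7900 : Ok6 psA [] 2 4 7900 8000 :=
  of6 (c := 100) (by decide +kernel) rfl
theorem c3_8000 : Ok6 psA [] 2 4 8000 8100 :=
  of6 (c := 100) (by decide +kernel) rfl
theorem c3_8100 : Ok6 psA [] 2 4 8100 8200 :=
  of6 (c := 100) (by decide +kernel) rfl
theorem c3_8200 : Ok6 psA [] 2 4 8200 8300 :=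
  of6 (c := 100) (by decide +kernel) rfl
theorem c3_8300 : Ok6 psA [] 2 4 8300 8400 :=
  of6 (c := 100) (by decide +kernel) rfl

theorem c3 : Ok6 psA [] 2 4 6100 8400 :=
  c3_6100.trans <| c3_6200.trans <| c3_6300.trans <| c3_6400.trans <| c3_6500.trans <|
    c3_6600.trans <| c3_6700.trans <| c3_6800.trans <| c3_6900.trans <| c3_7000.trans <|
    c3_7100.trans <| c3_7200.trans <| c3_7300.trans <| c3_7400.trans <| c3_7500.trans <|
    c3_7600.trans <| c3_7700.trans <| c3_7800.trans <| c3_7900.trans <| c3_8000.trans <|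
    c3_8100.trans <| c3_8200.trans <| c3_8300

end Pool.Agent.Helper79.P2.ED
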