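import Pool.Agent.Helper79.P2.EDLst

/-! # MP_2b6189_al: dimensions divisible by `4`, the search, `4 k`, part 4 -/

set_option autoImplicit false
set_option maxRecDepth 100000

namespace Pool.Agent.Helper79.P2.ED

theorem c4_8400 : Ok6 psA [] 2 4 8400 8500 :=
  of6 (c := 100) (by decide +kernel) rfl
theorem c4_8500 : Ok6 psA [] 2 4 8500 8600 :=
  of6 (c := 100) (by decide +kernel) rfl
theorem c4_8600 : Ok6 psA [] 2 4 8600 8700 :=
  of6 (c := 100) (by decide +kernel) rfl
theorem c4_8700 : Ok6 psA [] 2 4 8700 8800 :=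
  of6 (c := 100) (by decide +kernel) rfl
theorem c4_8800 : Ok6 psA [] 2 4 8800 8900 :=
  of6 (c := 100) (by decide +kernel) rfl
theorem c4_8900 : Ok6 psA [] 2 4 8900 9000 :=
  of6 (c := 100) (by decide +kernel) rfl
theorem c4_9000 : Ok6 psA [] 2 4 9000 9100 :=
  of6 (c := 100) (by decide +kernel) rfl
theorem c4_9100 : Ok6 psA [] 2 4 9100 9200 :=
  of6 (c := 100) (by decide +kernel) rfl
theorem c4_9200 : Ok6 psA [] 2 4 9200 9300 :=
  of6 (c := 100) (by decide +kernel) rfl
theorem c4_9300 : Ok6 psA [] 2 4 9300 9400 :=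
  of6 (c := 100) (by decide +kernel) rfl
theorem c4_9400 : Ok6 psA [] 2 4 9400 9500 :=
  of6 (c := 100) (by decide +kernel) rfl
theorem c4_9500 : Ok6 psA [] 2 4 9500 9600 :=
  of6 (c := 100) (by decide +kernel) rfl
theorem c4_9600 : Ok6 psA [] 2 4 9600 9700 :=
  of6 (c := 100) (by decide +kernel) rfl
theorem c4_9700 : Ok6 psA [] 2 4 9700 9800 :=
  of6 (c := 100) (by decide +kernel) rfl
theorem c4_9800 : Ok6 psA [] 2 4 9800 9900 :=
  of6 (c := 100) (by decide +kernel) rfl
theorem c4_9900 : Ok6 psA [] 2 4 9900 10000 :=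
  of6 (c := 100) (by decide +kernel) rfl
theorem c4_10000 : Ok6 psA [] 2 4 10000 10100 :=
  of6 (c := 100) (by decide +kernel) rfl
theorem c4_10100 : Ok6 psA [] 2 4 10100 10200 :=
  of6 (c := 100) (by decide +kernel) rfl
theorem c4_10200 : Ok6 psA [] 2 4 10200 10300 :=
  of6 (c := 100) (by decide +kernel) rfl
theorem c4_10300 : Ok6 psA [] 2 4 10300 10400 :=
  of6 (c := 100) (by decide +kernel) rfl
theorem c4_10400 : Ok6 psA [] 2 4 10400 10500 :=
  of6 (c := 100) (by decide +kernel) rfl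
theorem c4_10500 : Ok6 psA [] 2 4 10500 10529 :=
  of6 (c := 29) (by decide +kernel) rfl

theorem c4 : Ok6 psA [] 2 4 8400 10529 :=
  c4_8400.trans <| c4_8500.trans <| c4_8600.trans <| c4_8700.trans <| c4_8800.trans <|
    c4_8900.trans <| c4_9000.trans <| c4_9100.trans <| c4_9200.trans <| c4_9300.trans <|
    c4_9400.trans <| c4_9500.trans <| c4_9600.trans <| c4_9700.trans <| c4_9800.trans <|
    c4_9900.trans <| c4_10000.trans <| c4_10100.trans <| c4_10200.trans <| c4_10300.trans <|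
    c4_10400.trans <| c4_10500

end Pool.Agent.Helper79.P2.ED
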