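import Pool.Agent.Helper79.P2.EDLst

/-! # MP_2b6189_al: powerful numbers divisible by `4` -/

set_option autoImplicit false
set_option maxRecDepth 100000

namespace Pool.Agent.Helper79.P2.ED

/-- remove the factor `r` -/
def strip (r : ℕ) : ℕ → ℕ → ℕ
  | 0, m => m
  | f + 1, m =>
    match Nat.beq (m % r) 0 with
    | true => strip r f (m / r)
    | false => m

theorem strip_spec (r f m : ℕ) : ∃ c, m = r ^ c * strip r f m := by
  induction f generalizing m with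
  | zero => exact ⟨0, by rw [strip, pow_zero, one_mul]⟩
  | succ f ih =>
    rw [strip]
    rcases hb : Nat.beq (m % r) 0 with _ | _
    · exact ⟨0, by rw [pow_zero, one_mul]⟩
    · obtain ⟨c, hc⟩ := ih (m / r)
      refine ⟨c + 1, ?_⟩
      rw [Nat.beq_eq] at hb
      have h1 : r * (m / r) = m := Nat.mul_div_cancel' (Nat.dvd_of_mod_eq_zero hb)
      calc m = r * (m / r) := h1.symm
        _ = r * (r ^ c * strip r f (m / r)) := by rw [← hc]
        _ = _ := by ring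

/-- at most `c` primes of the list divide `k`, and no other prime -/
def tw : List ℕ → ℕ → ℕ → Bool
  | [], _, k => Nat.beq k 1
  | r :: R, c, k =>
    match Nat.beq (k % r) 0 with
    | false => tw R c k
    | true => Nat.ble 1 c && tw R (c - 1) (strip r 20 k)

theorem tw_spec (R : List ℕ) (hR : ∀ r ∈ R, r.Prime) (c k : ℕ) (h : tw R c k = true) :
    ∃ S : List ℕ, S.length ≤ c ∧ (∀ s ∈ S, s ∈ R ∧ s ∣ k) ∧
      ∀ l : ℕ, l.Prime → l ∣ k → l ∈ S := by
  induction R generalizing c k with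
  | nil =>
    rw [tw, Nat.beq_eq] at h
    refine ⟨[], Nat.zero_le _, fun s hs => absurd hs List.not_mem_nil, fun l hl h1 => ?_⟩
    rw [h] at h1
    exact absurd (Nat.dvd_one.1 h1) hl.ne_one
  | cons r R ih =>
    have ih' := ih fun s hs => hR s (List.mem_cons_of_mem _ hs)
    have hr := hR r (List.mem_cons_self ..)
    rw [tw] at h
    rcases hb : Nat.beq (k % r) 0 with _ | _
    · rw [hb] at h
      obtain ⟨S, h1, h2, h3⟩ := ih' c k h
      exact ⟨S, h1, fun s hs => ⟨List.mem_cons_of_mem _ (h2 s hs).1, (h2 s hs).2⟩, h3⟩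
    · rw [hb] at h
      dsimp only at h
      rw [Bool.and_eq_true, Nat.ble_eq] at h
      obtain ⟨S, h1, h2, h3⟩ := ih' _ _ h.2
      have hc := h.1
      obtain ⟨e, he⟩ := strip_spec r 20 k
      have hdk : strip r 20 k ∣ k := ⟨r ^ e, by rw [mul_comm]; exact he⟩
      have hrk : r ∣ k := Nat.dvd_of_mod_eq_zero (Nat.eq_of_beq_eq_true hb)
      refine ⟨r :: S, by rw [List.length_cons]; omega, ?_, ?_⟩
      · intro s hs
        rcases List.mem_cons.1 hs with rfl | hs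
        · exact ⟨List.mem_cons_self .., hrk⟩
        · exact ⟨List.mem_cons_of_mem _ (h2 s hs).1, (h2 s hs).2.trans hdk⟩
      · intro l hl hlk
        rw [he] at hlk
        rcases (Nat.Prime.dvd_mul hl).1 hlk with h4 | h4
        · rw [(Nat.prime_dvd_prime_iff_eq hl hr).1 (hl.dvd_of_dvd_pow h4)]
          exact List.mem_cons_self ..
        · exact List.mem_cons_of_mem _ (h3 l hl h4)

/-- the odd primes below `252` -/
def R0 : List ℕ :=
  [3, 5, 7, 11, 13, 17, 19, 23, 29, 31, 37, 41, 43, 47, 53, 59, 61, 67, 71, 73, 79, 83, 89, 97,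
   101, 103, 107, 109, 113, 127, 131, 137, 139, 149, 151, 157, 163, 167, 173, 179, 181, 191, 193,
   197, 199, 211, 223, 227, 229, 233, 239, 241, 251]

theorem R0_prime : ∀ r ∈ R0, r.Prime ∧ r ≠ 2 := by
  intro r hr
  unfold R0 at hr
  simp only [List.mem_cons, List.not_mem_nil, or_false] at hr
  rcases hr with rfl | rfl | rfl | rfl | rfl | rfl | rfl | rfl | rfl | rfl | rfl | rfl | rfl | rfl | rfl | rfl | rfl | rfl | rfl | rfl | rfl | rfl | rfl | rfl | rfl | rfl | rfl | rfl | rfl | rfl | rfl | rfl | rfl | rfl | rfl | rfl | rfl | rfl | rfl | rfl | rfl | rfl | rfl | rfl | rfl | rfl | rfl | rfl | rfl | rfl | rfl | rfl | rfl <;>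
    exact ⟨by norm_num, by norm_num⟩

/-- the powerful numbers covered by the theorems without exact primes -/
def Pw (n : ℕ) : Prop :=
  (∃ p q : ℕ, ∀ l : ℕ, l.Prime → l ∣ n → l = p ∨ l = q) ∨
  (∃ p q r m : ℕ, p.Prime ∧ q.Prime ∧ r.Prime ∧ q ≠ p ∧ r ≠ p ∧ n = p ^ 2 * m ∧ ¬ p ∣ m ∧
    (∀ l : ℕ, l.Prime → l ∣ m → l = q ∨ l = r) ∧ (p ≤ 5 ∨ (p < q ^ 2 ∧ p < r ^ 2)))

theorem two_of_tw {k : ℕ} (h : tw R0 2 k = true) : ∃ q r : ℕ, q.Prime ∧ r.Prime ∧ q ≠ 2 ∧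
    r ≠ 2 ∧ ∀ l : ℕ, l.Prime → l ∣ k → l = q ∨ l = r := by
  obtain ⟨S, h1, h2, h3⟩ := tw_spec R0 (fun r hr => (R0_prime r hr).1) 2 k h
  have h7 : Nat.Prime 7 := by norm_num
  rcases S with _ | ⟨q, _ | ⟨r, _ | ⟨s, S⟩⟩⟩
  · exact ⟨7, 7, h7, h7, by norm_num, by norm_num, fun l hl h4 => absurd (h3 l hl h4)
      List.not_mem_nil⟩
  · have hq := R0_prime q (h2 q (by simp)).1
    exact ⟨q, q, hq.1, hq.1, hq.2, hq.2, fun l hl h4 => Or.inl (by simpa using h3 l hl h4)⟩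
  · have hq := R0_prime q (h2 q (by simp)).1
    have hr := R0_prime r (h2 r (by simp)).1
    exact ⟨q, r, hq.1, hr.1, hq.2, hr.2, fun l hl h4 => by simpa using h3 l hl h4⟩
  · rw [List.length_cons, List.length_cons, List.length_cons] at h1
    omega

theorem one_of_tw {k : ℕ} (h : tw R0 1 k = true) (p : ℕ) (hp : p = 3 ∨ p = 5) (hpk : ¬ p ∣ k) :
    ∃ q : ℕ, q.Prime ∧ q ≠ p ∧ ∀ l : ℕ, l.Prime → l ∣ k → l = q := by
  obtain ⟨S, h1, h2, h3⟩ := tw_spec R0 (fun r hr => (R0_prime r hr).1) 1 k h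
  rcases S with _ | ⟨q, _ | ⟨r, S⟩⟩
  · exact ⟨7, by norm_num, by omega, fun l hl h4 => absurd (h3 l hl h4) List.not_mem_nil⟩
  · have hq := R0_prime q (h2 q (by simp)).1
    refine ⟨q, hq.1, ?_, fun l hl h4 => by simpa using h3 l hl h4⟩
    rintro rfl
    exact hpk (h2 q (by simp)).2
  · rw [List.length_cons, List.length_cons] at h1
    omega

theorem one_of_tw' {k : ℕ} (h : tw R0 1 k = true) :
    ∃ q : ℕ, ∀ l : ℕ, l.Prime → l ∣ k → l = q := by
  obtain ⟨S, h1, h2, h3⟩ := tw_spec R0 (fun r hr => (R0_prime r hr).1) 1 k h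
  rcases S with _ | ⟨q, _ | ⟨r, S⟩⟩
  · exact ⟨7, fun l hl h4 => absurd (h3 l hl h4) List.not_mem_nil⟩
  · exact ⟨q, fun l hl h4 => by simpa using h3 l hl h4⟩
  · rw [List.length_cons, List.length_cons] at h1
    omega

/-- the test of the powerful number `4 k` -/
def okp4 (k : ℕ) : Bool := E4.any (fun e => Nat.beq ((4 * k) % e) 0) || tw R0 2 k

/-- the test of the powerful numbers `2 ^ a k`, `a ≥ 3` -/
def okp8 (k : ℕ) : Bool :=
  E8.any (fun e => Nat.beq ((8 * k) % e) 0) || (tw R0 1 k ||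
    ((Nat.beq (k % 9) 0 && (!(Nat.beq ((k / 9) % 3) 0) && tw R0 1 (k / 9))) ||
      (Nat.beq (k % 25) 0 && (!(Nat.beq ((k / 25) % 5) 0) && tw R0 1 (k / 25)))))

theorem okp4_sound {k : ℕ} (hk : ¬ 2 ∣ k) (h : okp4 k = true) :
    (∃ e ∈ E4, e ∣ 4 * k) ∨ Pw (4 * k) := by
  unfold okp4 at h
  rw [Bool.or_eq_true] at h
  rcases h with h | h
  · obtain ⟨e, he, h4⟩ := List.any_eq_true.1 h
    rw [Nat.beq_eq] at h4
    exact Or.inl ⟨e, he, Nat.dvd_of_mod_eq_zero h4⟩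
  · obtain ⟨q, r, hq, hr, hq2, hr2, hl⟩ := two_of_tw h
    exact Or.inr (Or.inr ⟨2, q, r, k, Nat.prime_two, hq, hr, hq2, hr2, by norm_num, hk, hl,
      Or.inl (by norm_num)⟩)

theorem pSq_aux {a k p P : ℕ} (hp : p = 3 ∨ p = 5) (hP : P = p ^ 2) (h1 : P ∣ k)
    (h2 : ¬ p ∣ k / P) (h : tw R0 1 (k / P) = true) : Pw (2 ^ a * k) := by
  have hpp : p.Prime := by rcases hp with rfl | rfl <;> norm_num
  obtain ⟨q, hq, hqp, hl⟩ := one_of_tw h p hp h2
  obtain ⟨m, rfl⟩ := h1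
  have hP0 : 0 < P := by
    rw [hP]
    exact Nat.pow_pos hpp.pos
  rw [Nat.mul_div_cancel_left m hP0] at h2 hl
  have h2p : 2 ≠ p := by omega
  refine Or.inr ⟨p, 2, q, 2 ^ a * m, hpp, Nat.prime_two, hq, h2p, hqp, by rw [hP]; ring, ?_, ?_,
    Or.inl (by omega)⟩
  · intro h3
    rcases (Nat.Prime.dvd_mul hpp).1 h3 with h4 | h4
    · exact h2p ((Nat.prime_dvd_prime_iff_eq hpp Nat.prime_two).1 (hpp.dvd_of_dvd_pow h4)).symm
    · exact h2 h4
  · intro l hl' h3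
    rcases (Nat.Prime.dvd_mul hl').1 h3 with h4 | h4
    · exact Or.inl ((Nat.prime_dvd_prime_iff_eq hl' Nat.prime_two).1 (hl'.dvd_of_dvd_pow h4))
    · exact Or.inr (hl l hl' h4)

theorem okp8_sound {a k : ℕ} (ha : 3 ≤ a) (h : okp8 k = true) :
    (∃ e ∈ E8, e ∣ 2 ^ a * k) ∨ Pw (2 ^ a * k) := by
  unfold okp8 at h
  rw [Bool.or_eq_true, Bool.or_eq_true, Bool.or_eq_true] at h
  rcases h with h | h | h | h
  · obtain ⟨e, he, h4⟩ := List.any_eq_true.1 h
    rw [Nat.beq_eq] at h4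
    refine Or.inl ⟨e, he, (Nat.dvd_of_mod_eq_zero h4).trans (Nat.mul_dvd_mul_right ?_ k)⟩
    exact Nat.pow_dvd_pow 2 ha
  · obtain ⟨q, hl⟩ := one_of_tw' h
    refine Or.inr (Or.inl ⟨2, q, fun l hl' h3 => ?_⟩)
    rcases (Nat.Prime.dvd_mul hl').1 h3 with h4 | h4
    · exact Or.inl ((Nat.prime_dvd_prime_iff_eq hl' Nat.prime_two).1 (hl'.dvd_of_dvd_pow h4))
    · exact Or.inr (hl l hl' h4)
  · rw [Bool.and_eq_true, Bool.and_eq_true, Nat.beq_eq, Bool.not_eq_true'] at h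
    refine Or.inr (pSq_aux (Or.inl rfl) (by norm_num) (Nat.dvd_of_mod_eq_zero h.1) ?_ h.2.2)
    intro h3
    have := h.2.1
    rw [Nat.mod_eq_zero_of_dvd h3] at this
    exact absurd this (by decide)
  · rw [Bool.and_eq_true, Bool.and_eq_true, Nat.beq_eq, Bool.not_eq_true'] at h
    refine Or.inr (pSq_aux (Or.inr rfl) (by norm_num) (Nat.dvd_of_mod_eq_zero h.1) ?_ h.2.2)
    intro h3
    have := h.2.1
    rw [Nat.mod_eq_zero_of_dvd h3] at this
    exact absurd this (by decide)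

/-! ### the enumeration of the powerful numbers -/

/-- powerful numbers are `x ^ 2 y ^ 3` -/
theorem pow_form (k : ℕ) (h : ∀ p : ℕ, p.Prime → p ∣ k → p * p ∣ k) :
    ∃ x y : ℕ, k = x * x * (y * y * y) := by
  obtain ⟨a, b, hab, hsq⟩ := Nat.sq_mul_squarefree k
  have hdvd : a ∣ b := by
    rw [← Nat.prod_primeFactors_of_squarefree hsq]
    refine Finset.prod_primes_dvd b (fun p hp => (Nat.prime_of_mem_primeFactors hp).prime)
      fun p hp => ?_
    have hpp := Nat.prime_of_mem_primeFactors hp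
    obtain ⟨a', ha'⟩ := Nat.dvd_of_mem_primeFactors hp
    have hpa : ¬ p ∣ a' := by
      rintro ⟨c, hc⟩
      have h2 := hsq p ⟨c, by rw [ha', hc]; ring⟩
      exact hpp.one_lt.ne' (Nat.isUnit_iff.1 h2)
    have e : p * (b ^ 2 * a') = k := by rw [← hab, ha']; ring
    have h3 := h p hpp ⟨b ^ 2 * a', e.symm⟩
    have h4 : p ∣ b ^ 2 * a' := by
      refine Nat.dvd_of_mul_dvd_mul_left hpp.pos ?_
      rw [e]
      exact h3
    rcases (Nat.Prime.dvd_mul hpp).1 h4 with h5 | h5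
    · exact hpp.dvd_of_dvd_pow h5
    · exact absurd h5 hpa
  obtain ⟨c, rfl⟩ := hdvd
  exact ⟨c, a, by rw [← hab]; ring⟩

/-- the loop over `x = 2 i + 1` -/
def lx (ok : ℕ → Bool) (B y3 : ℕ) : ℕ → Bool
  | 0 => true
  | i + 1 => (Nat.ble B ((2 * i + 1) * (2 * i + 1) * y3) ||
      ok ((2 * i + 1) * (2 * i + 1) * y3)) && lx ok B y3 i

/-- the loop over `y = 2 j + 1` -/
def ly (ok : ℕ → Bool) (B X : ℕ) : ℕ → Bool
  | 0 => true
  | j + 1 => lx ok B ((2 * j + 1) * (2 * j + 1) * (2 * j + 1)) X && ly ok B X j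

theorem lx_spec {ok : ℕ → Bool} {B y3 X : ℕ} (h : lx ok B y3 X = true) (i : ℕ) (hi : i < X)
    (hB : (2 * i + 1) * (2 * i + 1) * y3 < B) : ok ((2 * i + 1) * (2 * i + 1) * y3) = true := by
  induction X with
  | zero => omega
  | succ X ih =>
    rw [lx, Bool.and_eq_true, Bool.or_eq_true, Nat.ble_eq] at h
    rcases Nat.lt_or_ge i X with h3 | h3
    · exact ih h.2 h3
    · obtain rfl : i = X := by omega
      exact h.1.resolve_left (not_le.2 hB)

theorem ly_spec {ok : ℕ → Bool} {B X Y : ℕ} (h : ly ok B X Y = true) (i j : ℕ) (hi : i < X)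
    (hj : j < Y)
    (hB : (2 * i + 1) * (2 * i + 1) * ((2 * j + 1) * (2 * j + 1) * (2 * j + 1)) < B) :
    ok ((2 * i + 1) * (2 * i + 1) * ((2 * j + 1) * (2 * j + 1) * (2 * j + 1))) = true := by
  induction Y with
  | zero => omega
  | succ Y ih =>
    rw [ly, Bool.and_eq_true] at h
    rcases Nat.lt_or_ge j Y with h3 | h3
    · exact ih h.2 h3
    · obtain rfl : j = Y := by omega
      exact lx_spec h.1 i hi hB

theorem enum {ok : ℕ → Bool} {B X Y : ℕ} (h : ly ok B X Y = true)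
    (hX : B ≤ (2 * X + 1) * (2 * X + 1)) (hY : B ≤ (2 * Y + 1) * (2 * Y + 1) * (2 * Y + 1)) (k : ℕ)
    (hk : ¬ 2 ∣ k) (hkB : k < B) (hp : ∀ p : ℕ, p.Prime → p ∣ k → p * p ∣ k) : ok k = true := by
  obtain ⟨x, y, rfl⟩ := pow_form k hp
  have hx : ¬ 2 ∣ x := fun h1 => hk ((h1.mul_right x).mul_right _)
  have hy : ¬ 2 ∣ y := fun h1 => hk (Dvd.dvd.mul_left (h1.mul_left (y * y)) _)
  obtain ⟨i, rfl⟩ : ∃ i, x = 2 * i + 1 := ⟨x / 2, by omega⟩
  obtain ⟨j, rfl⟩ : ∃ j, y = 2 * j + 1 := ⟨y / 2, by omega⟩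
  have h1 : 1 ≤ (2 * i + 1) * (2 * i + 1) := Nat.mul_pos (by omega) (by omega)
  have h2 : 1 ≤ (2 * j + 1) * (2 * j + 1) * (2 * j + 1) :=
    Nat.mul_pos (Nat.mul_pos (by omega) (by omega)) (by omega)
  refine ly_spec h i j ?_ ?_ hkB
  · by_contra h3
    have h4 : (2 * X + 1) * (2 * X + 1) ≤ (2 * i + 1) * (2 * i + 1) :=
      Nat.mul_le_mul (by omega) (by omega)
    have h5 := Nat.le_mul_of_pos_right ((2 * i + 1) * (2 * i + 1)) h2
    omega
  · by_contra h3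
    have h4 : (2 * Y + 1) * (2 * Y + 1) * (2 * Y + 1) ≤
        (2 * j + 1) * (2 * j + 1) * (2 * j + 1) :=
      Nat.mul_le_mul (Nat.mul_le_mul (by omega) (by omega)) (by omega)
    have h5 := Nat.le_mul_of_pos_left ((2 * j + 1) * (2 * j + 1) * (2 * j + 1)) h1
    omega

theorem pw4_all : ly okp4 63175 126 20 = true := by decide +kernel

theorem pw8_all : ly okp8 12500 56 12 = true := by decide +kernel

theorem pw4 (k : ℕ) (hk : ¬ 2 ∣ k) (hkB : k < 63175)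
    (hp : ∀ p : ℕ, p.Prime → p ∣ k → p * p ∣ k) : (∃ e ∈ E4, e ∣ 4 * k) ∨ Pw (4 * k) :=
  okp4_sound hk (enum pw4_all (by norm_num) (by norm_num) k hk hkB hp)

theorem pw8 (a k : ℕ) (ha : 3 ≤ a) (hk : ¬ 2 ∣ k) (hkB : k < 12500)
    (hp : ∀ p : ℕ, p.Prime → p ∣ k → p * p ∣ k) :
    (∃ e ∈ E8, e ∣ 2 ^ a * k) ∨ Pw (2 ^ a * k) :=
  okp8_sound ha (enum pw8_all (by norm_num) (by norm_num) k hk hkB hp)

end Pool.Agent.Helper79.P2.ED
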