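import Pool.Agent.Helper79.P2.Small
import Pool.Agent.Helper94.P2.Arith2

/-! # MP_2b6189_al: all dimensions below `22680` except eight -/

set_option autoImplicit false

namespace Pool.Agent.Helper79.P2

open Pool.Agent.Helper94.YF Pool.Agent.Helper94.YG Pool.Agent.Helper94.P2
open Pool.Agent.Helper89.OC (TanSet)

variable {I : Type} [Fintype I] [DecidableEq I]

/-- the cases without a prime which divides exactly once -/
theorem of_cases (Z : CentreData I)
    (h : (∃ c : ℕ, Z.n = 2 ^ (c + 1)) ∨ IsTwo Z.n ∨ IsK2 Z.n) : ∃ D : I → Prop, TanSet Z D := by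
  rcases h with ⟨c, hc⟩ | ⟨p, q, k, m, hp, hp2, -, hk, hn, hpm, hm⟩ |
    ⟨p, q, r, m, hp, hq, hr, hn, hpm, hqp, hrp, -, hm, h3, h4, h5⟩
  · exact pow2 Z c hc
  · exact two Z p k m q hp hp2 hk hn hpm hm
  · exact Helper89.P2.k2 Z p m q r hp hq hr hn hpm hm hqp hrp h3 h4 h5

/-- **Theorem.**  All dimensions `1 < n < 22680` except eight. -/
theorem below22680 (Z : CentreData I) (h1 : 1 < Z.n) (h2 : Z.n < 22680)
    (h3 : Z.n ∉ [5400, 9800, 10584, 10800, 16200, 19600, 21168, 21600]) :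
    ∃ D : I → Prop, TanSet Z D := by
  rcases arith22680 Z.n h1 h2 h3 with ⟨p, hp, ⟨m, hm⟩, hpp⟩ | h
  · by_contra hT
    have hpm : ¬ p ∣ m := by
      rintro ⟨c, rfl⟩
      exact hpp ⟨c, by rw [hm, mul_assoc]⟩
    have := Pool.Agent.Helper79.AL.bound I Z p m hp hm hpm hT
    omega
  · exact of_cases Z h

end Pool.Agent.Helper79.P2
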