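import Pool.Agent.Helper79.P2.Two
import Pool.Agent.Helper52.P2.ToPK

/-! # MP_2b6189_al: dimensions with at most two prime divisors -/

set_option autoImplicit false

namespace Pool.Agent.Helper79.P2

open Pool.Agent.Helper94.YF Pool.Agent.Helper94.YG
open Pool.Agent.Helper89.OC (TanSet)

variable {I : Type} [Fintype I] [DecidableEq I]

/-- **Theorem.**  `n = p ^ k * m`, `p` an odd prime, all prime divisors of `m` equal. -/
theorem two (Z : CentreData I) (p k m q : ℕ) (hp : p.Prime) (hp2 : p ≠ 2) (hk : 1 ≤ k)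
    (hn : Z.n = p ^ k * m) (hpm : ¬ p ∣ m) (hq : ∀ l : ℕ, l.Prime → l ∣ m → l = q) :
    ∃ D : I → Prop, TanSet Z D := by
  by_contra hT
  obtain ⟨a, b, X, -, -, ho, -, hd, hm, -, hth, -, -, hchi, -, -⟩ :=
    Pool.Agent.Helper52.P2.toPK I Z p k (p ^ k) m hp hk rfl hn hpm
  exact twoK Z hT X hp2 ho hd hth hchi q (by rw [hm]; exact hq)

/-- **Theorem.**  Dimension greater than `1` with at most two prime divisors. -/
theorem twoPrimes (Z : CentreData I) (h1 : 1 < Z.n) (u v : ℕ)
    (h : ∀ l : ℕ, l.Prime → l ∣ Z.n → l = u ∨ l = v) : ∃ D : I → Prop, TanSet Z D := by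
  by_cases h2 : ∃ p, p.Prime ∧ p ∣ Z.n ∧ p ≠ 2
  · obtain ⟨p, hp, hpn, hp2⟩ := h2
    obtain ⟨k, m, hpm, hn⟩ := Nat.exists_eq_pow_mul_and_not_dvd Z.n_pos.ne' p hp.ne_one
    have hk : 1 ≤ k := by
      rcases Nat.eq_zero_or_pos k with h3 | h3
      · rw [h3, pow_zero, one_mul] at hn
        rw [hn] at hpn
        exact absurd hpn hpm
      · exact h3
    refine two Z p k m (if p = u then v else u) hp hp2 hk hn hpm ?_
    intro l hl hlm
    have h3 : l ∣ Z.n := by
      rw [hn]
      exact hlm.mul_left _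
    have h4 : l ≠ p := by
      rintro rfl
      exact hpm hlm
    split_ifs with h5
    · rcases h l hl h3 with h6 | h6
      · exact absurd (h6.trans h5.symm) h4
      · exact h6
    · rcases h l hl h3 with h6 | h6
      · exact h6
      · exfalso
        rcases h p hp hpn with h7 | h7
        · exact h5 h7
        · exact h4 (h6.trans h7.symm)
  · push Not at h2
    have h3 : Z.n = 2 ^ Z.n.primeFactorsList.length :=
      Nat.eq_prime_pow_of_unique_prime_dvd Z.n_pos.ne' fun {d} hd hdn => h2 d hd hdn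
    rcases Nat.eq_zero_or_pos Z.n.primeFactorsList.length with h4 | h4
    · rw [h4, pow_zero] at h3
      omega
    · exact pow2 Z (Z.n.primeFactorsList.length - 1) (by rw [Nat.sub_add_cancel h4]; exact h3)

end Pool.Agent.Helper79.P2
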