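import Pool.Agent.Helper79.P2.ED1
import Pool.Agent.Helper79.P2.ED2
import Pool.Agent.Helper79.P2.ED3
import Pool.Agent.Helper79.P2.ED4
import Pool.Agent.Helper79.P2.ED5
import Pool.Agent.Helper79.P2.ED6
import Pool.Agent.Helper79.P2.ED7
import Pool.Agent.Helper79.P2.ED8
import Pool.Agent.Helper79.P2.ED9
import Pool.Agent.Helper79.P2.ED10
import Pool.Agent.Helper79.P2.ED11
import Pool.Agent.Helper79.P2.ED12
import Pool.Agent.Helper79.P2.ED13
import Pool.Agent.Helper79.P2.ED14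
import Pool.Agent.Helper79.P2.ED15
import Pool.Agent.Helper79.P2.ED16
import Pool.Agent.Helper79.P2.ED17
import Pool.Agent.Helper79.P2.ED18
import Pool.Agent.Helper79.P2.ED19
import Pool.Agent.Helper79.P2.ED20
import Pool.Agent.Helper79.P2.EDPow
import Pool.Agent.Helper79.P2.Small2
import Pool.Agent.Helper94.P2.Odd2Fin
import Pool.Agent.Helper94.P2.Below2
import Pool.Agent.Helper94.AL.Even

/-! # MP_2b6189_al: dimensions below `100000`, and below `252700` if `8` does not divide them -/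

set_option autoImplicit false

namespace Pool.Agent.Helper79.P2.ED

open Pool.Agent.Helper94.YF Pool.Agent.Helper94.YG
open Pool.Agent.Helper89.OC (TanSet)
open Pool.Agent.Helper52.PN.Sr (Gho)

theorem fin_a {ps : List Q} {E6 E9 : List ℕ} {a w t0 t1 u0 u1 B P : ℕ} (hl : Lst ps B P)
    (ha : 2 ≤ a) (hw : 2 ^ a = w) (h6 : Ok6 ps E6 a w t0 t1) (h9 : Ok9 ps E9 a w u0 u1)
    (hE : ∀ e ∈ E6, e ∈ E9) (k : ℕ) (hk : ¬ 2 ∣ k) (hkB : k < B) (h61 : 6 * t0 ≤ k)
    (h62 : k < 6 * t1 + 1) (h91 : 18 * u0 ≤ k) (h92 : k < 18 * u1 + 9)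
    (hP : 2 * (2 ^ a * k) < P * (P + 1) ^ 2) (r : ℕ) (hr : r.Prime) (h1 : r ∣ 2 ^ a * k)
    (h2 : ¬ r * r ∣ 2 ^ a * k) : (∃ e ∈ E9, e ∣ 2 ^ a * k) ∨ NG (2 ^ a * k) := by
  by_cases h3 : 3 ∣ k
  · by_cases h9' : 9 ∣ k
    · obtain ⟨t, rfl⟩ : ∃ t, k = 18 * t + 9 := ⟨k / 18, by omega⟩
      exact okX_sound hw hl ha hk hkB (h9 t (by omega) (by omega)) hP (Or.inr h9') r hr h1 h2
    · exact Or.inr (exact3 a k h3 h9')
  · have h4 : k % 6 = 1 ∨ k % 6 = 5 := by omega
    have key : okX ps E6 a w k = true := by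
      rcases h4 with h4 | h4
      · obtain ⟨t, rfl⟩ : ∃ t, k = 6 * t + 1 := ⟨k / 6, by omega⟩
        exact (h6 t (by omega) (by omega)).1
      · obtain ⟨t, rfl⟩ : ∃ t, k = 6 * t + 5 := ⟨k / 6, by omega⟩
        exact (h6 t (by omega) (by omega)).2
    rcases okX_sound hw hl ha hk hkB key hP (Or.inl h3) r hr h1 h2 with ⟨e, he, h⟩ | h
    · exact Or.inl ⟨e, hE e he, h⟩
    · exact Or.inr h

theorem even8 (a k : ℕ) (ha : 3 ≤ a) (hk : ¬ 2 ∣ k) (h1 : 22680 ≤ 2 ^ a * k)
    (h2 : 2 ^ a * k < 100000) (r : ℕ) (hr : r.Prime) (h3 : r ∣ 2 ^ a * k)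
    (h4 : ¬ r * r ∣ 2 ^ a * k) : (∃ e ∈ E8, e ∣ 2 ^ a * k) ∨ NG (2 ^ a * k) := by
  have hk0 : 0 < k := by
    rcases Nat.eq_zero_or_pos k with rfl | h
    · exact absurd (dvd_zero 2) hk
    · exact h
  have ha16 : a ≤ 16 := by
    by_contra h5
    have h6 : 2 ^ 17 ≤ 2 ^ a := Nat.pow_le_pow_right (by norm_num) (by omega)
    have h7 : 2 ^ 17 * 1 ≤ 2 ^ a * k := Nat.mul_le_mul h6 hk0
    omega
  interval_cases a
  · exact fin_a psB_lst (by norm_num) (by norm_num) a3 b3 (fun e he => he) k hk (by omega)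
      (by omega) (by omega) (by omega) (by omega) (by omega) r hr h3 h4
  · exact fin_a psC_lst (by norm_num) (by norm_num) a4 b4 (fun e he => he) k hk (by omega)
      (by omega) (by omega) (by omega) (by omega) (by omega) r hr h3 h4
  · exact fin_a psC_lst (by norm_num) (by norm_num) a5 b5 (fun e he => he) k hk (by omega)
      (by omega) (by omega) (by omega) (by omega) (by omega) r hr h3 h4
  · exact fin_a psC_lst (by norm_num) (by norm_num) a6 b6 (fun e he => he) k hk (by omega)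
      (by omega) (by omega) (by omega) (by omega) (by omega) r hr h3 h4
  · exact fin_a psC_lst (by norm_num) (by norm_num) a7 b7 (fun e he => he) k hk (by omega)
      (by omega) (by omega) (by omega) (by omega) (by omega) r hr h3 h4
  · exact fin_a psC_lst (by norm_num) (by norm_num) a8 b8 (fun e he => he) k hk (by omega)
      (by omega) (by omega) (by omega) (by omega) (by omega) r hr h3 h4
  · exact fin_a psC_lst (by norm_num) (by norm_num) a9 b9 (fun e he => he) k hk (by omega)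
      (by omega) (by omega) (by omega) (by omega) (by omega) r hr h3 h4
  · exact fin_a psC_lst (by norm_num) (by norm_num) a10 b10 (fun e he => he) k hk (by omega)
      (by omega) (by omega) (by omega) (by omega) (by omega) r hr h3 h4
  · exact fin_a psC_lst (by norm_num) (by norm_num) a11 b11 (fun e he => he) k hk (by omega)
      (by omega) (by omega) (by omega) (by omega) (by omega) r hr h3 h4
  · exact fin_a psC_lst (by norm_num) (by norm_num) a12 b12 (fun e he => he) k hk (by omega)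
      (by omega) (by omega) (by omega) (by omega) (by omega) r hr h3 h4
  · exact fin_a psC_lst (by norm_num) (by norm_num) a13 b13 (fun e he => he) k hk (by omega)
      (by omega) (by omega) (by omega) (by omega) (by omega) r hr h3 h4
  · exact fin_a psC_lst (by norm_num) (by norm_num) a14 b14 (fun e he => he) k hk (by omega)
      (by omega) (by omega) (by omega) (by omega) (by omega) r hr h3 h4
  · exact fin_a psC_lst (by norm_num) (by norm_num) a15 b15 (fun e he => he) k hk (by omega)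
      (by omega) (by omega) (by omega) (by omega) (by omega) r hr h3 h4
  · exact fin_a psC_lst (by norm_num) (by norm_num) a16 b16 (fun e he => he) k hk (by omega)
      (by omega) (by omega) (by omega) (by omega) (by omega) r hr h3 h4

theorem even4 (k : ℕ) (hk : ¬ 2 ∣ k) (h1 : 5670 ≤ k) (h2 : k < 63175) (r : ℕ) (hr : r.Prime)
    (h3 : r ∣ 2 ^ 2 * k) (h4 : ¬ r * r ∣ 2 ^ 2 * k) :
    (∃ e ∈ E4, e ∣ 2 ^ 2 * k) ∨ NG (2 ^ 2 * k) :=
  fin_a psA_lst (by norm_num) (by norm_num) (c1.trans <| c2.trans <| c3.trans c4)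
    (d1.trans <| d2.trans <| d3.trans <| d4.trans <| d5.trans <| d6.trans <| d7.trans <| d8.trans <|
      d9.trans d10)
    (fun e he => absurd he List.not_mem_nil) k hk (by omega) (by omega) (by omega) (by omega)
    (by omega) (by omega) r hr h3 h4

theorem pow_odd {a k : ℕ} (hk : ¬ 2 ∣ k)
    (hex : ∀ r : ℕ, r.Prime → r ∣ 2 ^ a * k → r * r ∣ 2 ^ a * k) (p : ℕ) (hp : p.Prime)
    (hpk : p ∣ k) : p * p ∣ k := by
  have hp2 : p ≠ 2 := by
    rintro rfl
    exact hk hpk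
  have h7 : Nat.Coprime (p * p) (2 ^ a) :=
    Nat.Coprime.pow_right a (Nat.Coprime.mul_left
      ((Nat.coprime_primes hp Nat.prime_two).2 hp2)
      ((Nat.coprime_primes hp Nat.prime_two).2 hp2))
  exact h7.dvd_of_dvd_mul_left (hex p hp (hpk.mul_left _))

variable {I : Type} [Fintype I] [DecidableEq I]

/-- a prime which divides the dimension exactly once and is not a ghost prime -/
theorem ng_tan (Z : CentreData I) (h : NG Z.n) : ∃ D : I → Prop, TanSet Z D := by
  by_contra hT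
  obtain ⟨p, m, hp, hn, hpm, hG⟩ := h
  apply hG
  obtain ⟨-, N, A, h2, h3, h4, h5, h6, h7, -⟩ :=
    Pool.Agent.Helper89.PQ0.primeOnceT I Z p m hp hn hpm hT
  exact ⟨N, A, h2, h3, h4, h5, h6, h7⟩

/-- dimensions below `408375` which are not divisible by `4` -/
theorem notFour (Z : CentreData I) (h1 : 1 < Z.n) (h2 : Z.n < 408375) (h4 : ¬ 4 ∣ Z.n) :
    ∃ D : I → Prop, TanSet Z D := by
  by_cases ho : Odd Z.n
  · exact Pool.Agent.Helper94.P2.belowOdd2 Z h1 ho h2
  · rw [Nat.not_odd_iff_even] at ho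
    obtain ⟨k, hk⟩ := even_iff_two_dvd.1 ho
    refine Pool.Agent.Helper94.AL.even_tan I Z k hk ?_
    rw [Nat.odd_iff]
    by_contra h
    exact h4 ⟨k / 2, by rw [hk]; omega⟩

/-- the case `n = p ^ 2 q ^ b r ^ c` -/
theorem pSq (Z : CentreData I) (p q r m : ℕ) (hp : p.Prime) (hq : q.Prime) (hr : r.Prime)
    (hqp : q ≠ p) (hrp : r ≠ p) (hn : Z.n = p ^ 2 * m) (hm : ¬ p ∣ m)
    (hl : ∀ l : ℕ, l.Prime → l ∣ m → l = q ∨ l = r) (h : p ≤ 5 ∨ (p < q ^ 2 ∧ p < r ^ 2)) :
    ∃ D : I → Prop, TanSet Z D := by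
  have hq2 := hq.two_le
  have hr2 := hr.two_le
  have hqq : 2 * q ≤ q ^ 2 := by nlinarith
  have hrr : 2 * r ≤ r ^ 2 := by nlinarith
  by_cases h1 : p < q ^ 2 ∧ p < r ^ 2
  · exact Pool.Agent.Helper89.P2.k2b Z p m q r hp hq hr hn hm hl hqp hrp h1.1 h1.2
  have hp5 : p ≤ 5 := h.resolve_right h1
  have h3 : p = 5 := by
    have := hp.two_le
    interval_cases p
    · exact absurd ⟨by omega, by omega⟩ h1
    · exact absurd ⟨by omega, by omega⟩ h1
    · exact absurd hp (by norm_num)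
    · rfl
  subst h3
  by_cases e1 : q = 2
  · subst e1
    exact Pool.Agent.Helper89.P2.k25b Z m r hr (by rw [hn]; norm_num) hm hl
  by_cases e2 : r = 2
  · subst e2
    exact Pool.Agent.Helper89.P2.k25b Z m q hq (by rw [hn]; norm_num) hm
      fun l h4 h5 => (hl l h4 h5).symm
  exact absurd ⟨by omega, by omega⟩ h1

theorem pw_tan (Z : CentreData I) (h1 : 1 < Z.n) (h : Pw Z.n) : ∃ D : I → Prop, TanSet Z D := by
  rcases h with ⟨p, q, h⟩ | ⟨p, q, r, m, hp, hq, hr, hqp, hrp, hm, hpm, hl, h⟩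
  · exact Pool.Agent.Helper79.P2.twoPrimes Z h1 p q h
  · exact pSq Z p q r m hp hq hr hqp hrp hm hpm hl h

theorem fin_tan (Z : CentreData I) (h1 : 1 < Z.n) {E : List ℕ} (hE : ∀ e ∈ E, ¬ e ∣ Z.n)
    (h : (∃ e ∈ E, e ∣ Z.n) ∨ NG Z.n ∨ Pw Z.n) : ∃ D : I → Prop, TanSet Z D := by
  rcases h with ⟨e, he, h⟩ | h | h
  · exact absurd h (hE e he)
  · exact ng_tan Z h
  · exact pw_tan Z h1 h

/-- **Theorem.**  All dimensions `1 < n < 252700` which are not divisible by `8`, except the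
multiples of six numbers (there are eight of them). -/
theorem below4 (Z : CentreData I) (h1 : 1 < Z.n) (h2 : Z.n < 252700) (h8 : ¬ 8 ∣ Z.n)
    (hE : ∀ e ∈ E4, ¬ e ∣ Z.n) : ∃ D : I → Prop, TanSet Z D := by
  by_cases h4 : 4 ∣ Z.n
  swap
  · exact notFour Z h1 (by omega) h4
  rcases Nat.lt_or_ge Z.n 22680 with h5 | h5
  · exact Pool.Agent.Helper94.P2.below2 Z h1 h5 (fun h => h8 (by rw [h]; norm_num))
      (fun h => h8 (by rw [h]; norm_num))
  obtain ⟨k, hk⟩ := h4
  have hk2 : ¬ 2 ∣ k := by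
    rintro ⟨c, rfl⟩
    exact h8 ⟨c, by rw [hk]; ring⟩
  have e : Z.n = 2 ^ 2 * k := by rw [hk]; norm_num
  refine fin_tan Z h1 hE ?_
  by_cases hex : ∃ r : ℕ, r.Prime ∧ r ∣ 2 ^ 2 * k ∧ ¬ r * r ∣ 2 ^ 2 * k
  · obtain ⟨r, hr, h6, h7⟩ := hex
    rw [e]
    rcases even4 k hk2 (by omega) (by omega) r hr h6 h7 with h | h
    · exact Or.inl h
    · exact Or.inr (Or.inl h)
  · push Not at hex
    rw [hk]
    rcases pw4 k hk2 (by omega) (pow_odd hk2 hex) with h | h
    · exact Or.inl h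
    · exact Or.inr (Or.inr h)

/-- **Theorem.**  All dimensions `1 < n < 100000`, except the multiples of thirteen numbers (there
are thirty-two of them). -/
theorem below8 (Z : CentreData I) (h1 : 1 < Z.n) (h2 : Z.n < 100000)
    (hE : ∀ e ∈ E8, ¬ e ∣ Z.n) : ∃ D : I → Prop, TanSet Z D := by
  rcases Nat.lt_or_ge Z.n 22680 with h5 | h5
  · refine Pool.Agent.Helper94.P2.below2 Z h1 h5 (fun h => ?_) (fun h => ?_)
    · exact hE 10584 (by unfold E8; simp) (by rw [h])
    · exact hE 10584 (by unfold E8; simp) (by rw [h]; norm_num)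
  by_cases h8 : 8 ∣ Z.n
  swap
  · refine below4 Z h1 (by omega) h8 fun e he h => ?_
    unfold E4 at he
    simp only [List.mem_cons, List.not_mem_nil, or_false] at he
    rcases he with rfl | rfl | rfl | rfl | rfl | rfl
    · exact hE 44100 (by unfold E8; simp) h
    all_goals
      have := Nat.le_of_dvd (by omega) h
      omega
  obtain ⟨a, k, hk, e⟩ := Nat.exists_eq_two_pow_mul_odd (n := Z.n) (by omega)
  have hk2 : ¬ 2 ∣ k := fun h => (Nat.not_even_iff_odd.2 hk) (even_iff_two_dvd.2 h)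
  have ha : 3 ≤ a := by
    have h6 : 2 ^ 3 ∣ 2 ^ a * k := by
      rw [← e]
      exact h8
    have h7 : 2 ^ 3 ∣ 2 ^ a :=
      (Nat.Coprime.pow_left 3 (Nat.coprime_two_left.2 hk)).dvd_of_dvd_mul_right h6
    exact (Nat.pow_dvd_pow_iff_le_right (by norm_num)).1 h7
  have hk0 : 0 < k := hk.pos
  refine fin_tan Z h1 hE ?_
  by_cases hex : ∃ r : ℕ, r.Prime ∧ r ∣ 2 ^ a * k ∧ ¬ r * r ∣ 2 ^ a * k
  · obtain ⟨r, hr, h6, h7⟩ := hex
    rw [e]
    rcases even8 a k ha hk2 (by omega) (by omega) r hr h6 h7 with h | h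
    · exact Or.inl h
    · exact Or.inr (Or.inl h)
  · push Not at hex
    rw [e]
    have hk3 : k < 12500 := by
      have h6 : 2 ^ 3 * k ≤ 2 ^ a * k :=
        Nat.mul_le_mul_right k (Nat.pow_le_pow_right (by norm_num) ha)
      omega
    rcases pw8 a k ha hk2 hk3 (pow_odd hk2 hex) with h | h
    · exact Or.inl h
    · exact Or.inr (Or.inr h)

end Pool.Agent.Helper79.P2.ED
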