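import Pool.Agent.Helper79.P2.EDProg

/-! # MP_2b6189_al: dimensions divisible by `4`, the lists of primes -/

set_option autoImplicit false

namespace Pool.Agent.Helper79.P2.ED

/-- the exceptions below `100000` (their multiples are excluded) -/
def E8 : List ℕ :=
  [10584, 22680, 26136, 27000, 36504, 44100, 47432, 49000, 62424, 66248, 75600, 77976, 87120]

/-- the exceptions below `252700` not divisible by `8` (their multiples are excluded) -/
def E4 : List ℕ := [44100, 108900, 152100, 152460, 213444, 245700]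

/-- the primes below `79`, for `k < 63175` -/
def psA : List Q :=
  [(73, [3, 4, 6, 8, 9, 12, 18, 24, 36, 72], 29, 15), (71, [5, 7, 10, 14, 35, 70], 29, 15),
   (67, [3, 6, 11, 22, 33, 66], 30, 15), (61, [3, 4, 5, 6, 10, 12, 15, 20, 30, 60], 32, 16),
   (59, [29, 58], 32, 16), (53, [4, 13, 26, 52], 34, 17), (47, [23, 46], 36, 18),
   (43, [3, 6, 7, 14, 21, 42], 38, 19), (41, [4, 5, 8, 10, 20, 40], 39, 20),
   (37, [3, 4, 6, 9, 12, 18, 36], 41, 21), (31, [3, 5, 6, 10, 15, 30], 45, 23),
   (29, [4, 7, 14, 28], 46, 23), (23, [11, 22], 52, 26), (19, [3, 6, 9, 18], 57, 29),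
   (17, [4, 8, 16], 60, 30), (13, [3, 4, 6, 12], 69, 35), (11, [5, 10], 75, 38),
   (7, [3, 6], 94, 47), (5, [4], 112, 56)]

theorem psA_lst : Lst psA 63175 79 where
  good := by
    intro q hq
    unfold psA at hq
    simp only [List.mem_cons, List.not_mem_nil, or_false] at hq
    rcases hq with rfl | rfl | rfl | rfl | rfl | rfl | rfl | rfl | rfl | rfl | rfl | rfl | rfl | rfl | rfl | rfl | rfl | rfl | rfl <;>
      exact ⟨by norm_num, by decide +kernel, by norm_num, by norm_num⟩
  all := by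
    intro p hp h5 hP
    unfold psA
    interval_cases p <;> (revert hp; norm_num)

/-- the primes below `59`, for `k < 12500` -/
def psB : List Q :=
  [(53, [4, 13, 26, 52], 15, 8), (47, [23, 46], 16, 8), (43, [3, 6, 7, 14, 21, 42], 17, 9),
   (41, [4, 5, 8, 10, 20, 40], 17, 9), (37, [3, 4, 6, 9, 12, 18, 36], 18, 9),
   (31, [3, 5, 6, 10, 15, 30], 20, 10), (29, [4, 7, 14, 28], 20, 10), (23, [11, 22], 23, 12),
   (19, [3, 6, 9, 18], 25, 13), (17, [4, 8, 16], 27, 14), (13, [3, 4, 6, 12], 31, 16),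
   (11, [5, 10], 33, 17), (7, [3, 6], 42, 21), (5, [4], 49, 25)]

theorem psB_lst : Lst psB 12500 59 where
  good := by
    intro q hq
    unfold psB at hq
    simp only [List.mem_cons, List.not_mem_nil, or_false] at hq
    rcases hq with rfl | rfl | rfl | rfl | rfl | rfl | rfl | rfl | rfl | rfl | rfl | rfl | rfl | rfl <;>
      exact ⟨by norm_num, by decide +kernel, by norm_num, by norm_num⟩
  all := by
    intro p hp h5 hP
    unfold psB
    interval_cases p <;> (revert hp; norm_num)

/-- the primes below `59`, for `k < 6250` -/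
def psC : List Q :=
  [(53, [4, 13, 26, 52], 10, 5), (47, [23, 46], 11, 6), (43, [3, 6, 7, 14, 21, 42], 12, 6),
   (41, [4, 5, 8, 10, 20, 40], 12, 6), (37, [3, 4, 6, 9, 12, 18, 36], 12, 6),
   (31, [3, 5, 6, 10, 15, 30], 14, 7), (29, [4, 7, 14, 28], 14, 7), (23, [11, 22], 16, 8),
   (19, [3, 6, 9, 18], 18, 9), (17, [4, 8, 16], 19, 10), (13, [3, 4, 6, 12], 21, 11),
   (11, [5, 10], 23, 12), (7, [3, 6], 29, 15), (5, [4], 35, 18)]

theorem psC_lst : Lst psC 6250 59 where
  good := by
    intro q hq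
    unfold psC at hq
    simp only [List.mem_cons, List.not_mem_nil, or_false] at hq
    rcases hq with rfl | rfl | rfl | rfl | rfl | rfl | rfl | rfl | rfl | rfl | rfl | rfl | rfl | rfl <;>
      exact ⟨by norm_num, by decide +kernel, by norm_num, by norm_num⟩
  all := by
    intro p hp h5 hP
    unfold psC
    interval_cases p <;> (revert hp; norm_num)

/-- all numbers `6 s + 1`, `6 s + 5`, `t ≤ s < u`, pass the test -/
def Ok6 (ps : List Q) (E : List ℕ) (a w t u : ℕ) : Prop :=
  ∀ s, t ≤ s → s < u → okX ps E a w (6 * s + 1) = true ∧ okX ps E a w (6 * s + 5) = true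

/-- all numbers `18 s + 9`, `t ≤ s < u`, pass the test -/
def Ok9 (ps : List Q) (E : List ℕ) (a w t u : ℕ) : Prop :=
  ∀ s, t ≤ s → s < u → okX ps E a w (18 * s + 9) = true

theorem of6 {ps : List Q} {E : List ℕ} {a w t c u : ℕ} (h : l6 ps E a w t c = true)
    (hu : t + c = u) : Ok6 ps E a w t u := fun s h1 h2 => l6_spec h s h1 (by omega)

theorem of9 {ps : List Q} {E : List ℕ} {a w t c u : ℕ} (h : l9 ps E a w t c = true)
    (hu : t + c = u) : Ok9 ps E a w t u := fun s h1 h2 => l9_spec h s h1 (by omega)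

theorem Ok6.trans {ps : List Q} {E : List ℕ} {a w t u v : ℕ} (h : Ok6 ps E a w t u)
    (h' : Ok6 ps E a w u v) : Ok6 ps E a w t v := fun s h1 h2 =>
  (Nat.lt_or_ge s u).elim (fun h3 => h s h1 h3) fun h3 => h' s h3 h2

theorem Ok9.trans {ps : List Q} {E : List ℕ} {a w t u v : ℕ} (h : Ok9 ps E a w t u)
    (h' : Ok9 ps E a w u v) : Ok9 ps E a w t v := fun s h1 h2 =>
  (Nat.lt_or_ge s u).elim (fun h3 => h s h1 h3) fun h3 => h' s h3 h2

end Pool.Agent.Helper79.P2.ED
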