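import Pool.Agent.Helper94.P2.OddProg
import Pool.Agent.Helper52.PN.Small

/-! # MP_2b6189_al: dimensions divisible by `4`, the verified search -/

set_option autoImplicit false

namespace Pool.Agent.Helper79.P2.ED

open Pool.Agent.Helper89.PQ0 (Tup)
open Pool.Agent.Helper52.PN.Sr Pool.Agent.Helper94.P2.OD

/-- twice the elements of a list -/
def dbl : List ℕ → List ℕ
  | [] => []
  | d :: t => (2 * d) :: dbl t

/-- the lists `D`, `2 D`, ..., `2 ^ a D` -/
def mulp : ℕ → List ℕ → List ℕ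
  | 0, D => D
  | a + 1, D => D ++ mulp a (dbl D)

theorem mem_dbl {D : List ℕ} {d : ℕ} (h : d ∈ D) : 2 * d ∈ dbl D := by
  induction D with
  | nil => simp at h
  | cons e t ih =>
    rw [dbl]
    rcases List.mem_cons.1 h with rfl | h
    · exact List.mem_cons_self ..
    · exact List.mem_cons_of_mem _ (ih h)

theorem mem_mulp (a i : ℕ) (hi : i ≤ a) {D : List ℕ} {d : ℕ} (h : d ∈ D) :
    2 ^ i * d ∈ mulp a D := by
  induction a generalizing i D d with
  | zero =>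
    obtain rfl : i = 0 := by omega
    rw [pow_zero, one_mul]
    exact h
  | succ a ih =>
    rw [mulp, List.mem_append]
    rcases i with _ | i
    · left
      rwa [pow_zero, one_mul]
    · right
      have := ih i (by omega) (mem_dbl h)
      rwa [pow_succ, mul_assoc]

theorem dvd_two_pow_mul (a m x : ℕ) (hx : x ∣ 2 ^ a * m) :
    ∃ i d, i ≤ a ∧ d ∣ m ∧ x = 2 ^ i * d := by
  obtain ⟨y, z, hy, hz, rfl⟩ := exists_dvd_and_dvd_of_dvd_mul hx
  obtain ⟨i, hi, rfl⟩ := (Nat.dvd_prime_pow Nat.prime_two).1 hy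
  exact ⟨i, z, hi, hz, rfl⟩

/-- the test of one prime, `D` the list of divisors -/
def tF (p : ℕ) (Ns : List ℕ) (D : List ℕ) : Bool :=
  D.all fun A => Nat.ble (2 * A + 1) ((p + 1) * (p + 1)) ||
    Ns.all (fun N => !(cg p N A) || srch p ((p - 1) / N) A D)

theorem tF_sound (p : ℕ) (Ns : List ℕ) (D : List ℕ) (m : ℕ) (hp : p.Prime)
    (hNs : ∀ N, N ∣ p - 1 → 3 ≤ N → N ∈ Ns) (hD : ∀ x, x ∣ m → x ∈ D)
    (h : tF p Ns D = true) : ¬ Gho p m := by
  rintro ⟨N, A, hN3, hNp, hAm, hA, hc, hT⟩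
  have hNle : N ≤ p := (Nat.le_of_dvd (by have := hp.two_le; omega) hNp).trans (Nat.sub_le _ _)
  have h1 := List.all_eq_true.1 h A (hD A hAm)
  rw [Bool.or_eq_true, Nat.ble_eq] at h1
  have h2 : ¬ 2 * A + 1 ≤ (p + 1) * (p + 1) := by
    rw [← sq]
    omega
  have h3 := List.all_eq_true.1 (h1.resolve_left h2) N (hNs N hNp hN3)
  rw [Bool.or_eq_true, cg_of hNle hc] at h3
  exact srch_sound p m N A D hp (by omega) hD (h3.resolve_left (by decide)) hT

/-- a prime, the divisors `N ≥ 3` of `p - 1`, bounds -/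
abbrev Q := ℕ × List ℕ × ℕ × ℕ

/-- the conditions for an entry of the list, `k < B` -/
def Good (B : ℕ) (q : Q) : Prop :=
  q.1.Prime ∧ (∀ N, N < q.1 → N ∣ q.1 - 1 → 3 ≤ N → q.2.1.contains N = true) ∧
    B ≤ q.1 * (q.2.2.1 + 1) ^ 2 ∧ q.2.2.1 ≤ 2 * q.2.2.2

/-- the test of the number `2 ^ a k` -/
def okG (ps : List Q) (a k : ℕ) : Bool :=
  ps.any (fun q => ex k q.1 &&
      tF q.1 q.2.1 (mulp a (divo (k / q.1) q.2.2.1 q.2.2.2))) ||
    ps.all (fun q => !(ex k q.1))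

/-- the conclusion: there is a prime which divides `n` exactly once and is not a ghost prime -/
def NG (n : ℕ) : Prop := ∃ p m : ℕ, p.Prime ∧ n = p * m ∧ ¬ p ∣ m ∧ ¬ Gho p m

theorem NG.of {n p : ℕ} (hp : p.Prime) (h1 : p ∣ n) (h2 : ¬ p * p ∣ n)
    (h : ∀ m, n = p * m → ¬ Gho p m) : NG n := by
  obtain ⟨m, hm⟩ := h1
  refine ⟨p, m, hp, hm, ?_, h m hm⟩
  rintro ⟨c, rfl⟩
  exact h2 ⟨c, by rw [hm, mul_assoc]⟩

/-- the list of primes and the bounds -/
structure Lst (ps : List Q) (B P : ℕ) : Prop where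
  good : ∀ q ∈ ps, Good B q
  all : ∀ p, p.Prime → 5 ≤ p → p < P → ∃ q ∈ ps, q.1 = p

theorem okG_sound {ps : List Q} {B P a k : ℕ} (hl : Lst ps B P) (ha : 2 ≤ a) (hk : ¬ 2 ∣ k)
    (hkB : k < B) (h : okG ps a k = true) (hP : 2 * (2 ^ a * k) < P * (P + 1) ^ 2)
    (h3 : ¬ 3 ∣ k ∨ 9 ∣ k) (r : ℕ) (hr : r.Prime) (h1 : r ∣ 2 ^ a * k) (h2 : ¬ r * r ∣ 2 ^ a * k) :
    NG (2 ^ a * k) := by
  have hk0 : 0 < k := by
    rcases Nat.eq_zero_or_pos k with rfl | h
    · exact absurd (dvd_zero 2) hk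
    · exact h
  have h4 : 2 * 2 ∣ 2 ^ a * k := by
    obtain ⟨b, rfl⟩ := Nat.exists_eq_add_of_le ha
    exact ⟨2 ^ b * k, by rw [pow_add]; ring⟩
  unfold okG at h
  rw [Bool.or_eq_true] at h
  rcases h with h | h
  · obtain ⟨q, hq, h5⟩ := List.any_eq_true.1 h
    rw [Bool.and_eq_true] at h5
    obtain ⟨h5, h6⟩ := h5
    obtain ⟨h7, h8⟩ := Pool.Agent.Helper52.PN.ex_iff.1 h5
    obtain ⟨g1, g2, g3, g4⟩ := hl.good q hq
    obtain ⟨m, hm⟩ := h7
    have hkm : k / q.1 = m := by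
      rw [hm]
      exact Nat.mul_div_cancel_left m g1.pos
    rw [hkm] at h6
    have hm2 : ¬ 2 ∣ m := fun h9 => hk (by rw [hm]; exact h9.mul_left _)
    have hq2 : q.1 ≠ 2 := by
      intro h9
      rw [h9] at hm
      exact hk ⟨m, hm⟩
    have hms : m < (q.2.2.1 + 1) ^ 2 := by
      by_contra h9
      have h10 := Nat.mul_le_mul_left q.1 (not_lt.1 h9)
      rw [← hm] at h10
      omega
    refine ⟨q.1, 2 ^ a * m, g1, by rw [hm]; ring, ?_, ?_⟩
    · intro h9
      rcases (Nat.Prime.dvd_mul g1).1 h9 with h10 | h10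
      · exact hq2 ((Nat.prime_dvd_prime_iff_eq g1 Nat.prime_two).1 (g1.dvd_of_dvd_pow h10))
      · obtain ⟨c, hc⟩ := h10
        exact h8 ⟨c, by rw [hm, hc]; ring⟩
    · refine tF_sound q.1 q.2.1 _ _ g1 ?_ ?_ h6
      · intro N hN1 hN3
        rw [← List.contains_iff_mem]
        refine g2 N ?_ hN1 hN3
        have := Nat.le_of_dvd (by have := g1.two_le; omega) hN1
        have := g1.two_le
        omega
      · intro x hx
        obtain ⟨i, d, hi, hd, rfl⟩ := dvd_two_pow_mul a m x hx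
        exact mem_mulp a i hi (mem_divo m _ _ d hd hm2 hms g4)
  · have hr2 : r ≠ 2 := by
      rintro rfl
      exact h2 h4
    have hrk : r ∣ k := by
      rcases (Nat.Prime.dvd_mul hr).1 h1 with h5 | h5
      · exact absurd ((Nat.prime_dvd_prime_iff_eq hr Nat.prime_two).1 (hr.dvd_of_dvd_pow h5)) hr2
      · exact h5
    have hrk2 : ¬ r * r ∣ k := fun h5 => h2 (h5.mul_left _)
    have hr3 : r ≠ 3 := by
      rintro rfl
      rcases h3 with h5 | h5
      · exact h5 hrk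
      · exact hrk2 h5
    have hr4 : r ≠ 4 := by
      rintro rfl
      exact absurd hr (by norm_num)
    have hr5 : 5 ≤ r := by
      have := hr.two_le
      omega
    have hrP : P ≤ r := by
      by_contra h5
      obtain ⟨q, hq, rfl⟩ := hl.all r hr hr5 (not_le.1 h5)
      have h6 := List.all_eq_true.1 h q hq
      rw [Pool.Agent.Helper52.PN.ex_iff.2 ⟨hrk, hrk2⟩] at h6
      exact absurd h6 (by decide)
    refine NG.of hr h1 h2 fun m hm hG => ?_
    have hm0 : 0 < m := by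
      rcases Nat.eq_zero_or_pos m with rfl | h5
      · rw [mul_zero] at hm
        have : 0 < 2 ^ a * k := Nat.mul_pos (Nat.pow_pos (by norm_num)) hk0
        omega
      · exact h5
    have h5 := (Pool.Agent.Helper52.PN.Gho.bound hr hm0 hG).2
    have h6 : P * (P + 1) ^ 2 ≤ r * (2 * m) :=
      Nat.mul_le_mul hrP (le_trans (Nat.pow_le_pow_left (by omega) 2) h5)
    have h7 : r * (2 * m) = 2 * (2 ^ a * k) := by rw [hm]; ring
    omega

/-- the test with exceptions, `w = 2 ^ a` -/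
def okX (ps : List Q) (E : List ℕ) (a w k : ℕ) : Bool :=
  E.any (fun e => Nat.beq ((w * k) % e) 0) || okG ps a k

/-- the numbers `6 t + 1`, `6 t + 5` -/
def l6 (ps : List Q) (E : List ℕ) (a w t : ℕ) : ℕ → Bool
  | 0 => true
  | c + 1 => okX ps E a w (6 * (t + c) + 1) && (okX ps E a w (6 * (t + c) + 5) && l6 ps E a w t c)

/-- the numbers `18 t + 9` -/
def l9 (ps : List Q) (E : List ℕ) (a w t : ℕ) : ℕ → Bool
  | 0 => true
  | c + 1 => okX ps E a w (18 * (t + c) + 9) && l9 ps E a w t c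

theorem l6_spec {ps : List Q} {E : List ℕ} {a w t c : ℕ} (h : l6 ps E a w t c = true) (s : ℕ)
    (h1 : t ≤ s) (h2 : s < t + c) :
    okX ps E a w (6 * s + 1) = true ∧ okX ps E a w (6 * s + 5) = true := by
  induction c with
  | zero => omega
  | succ c ih =>
    rw [l6, Bool.and_eq_true, Bool.and_eq_true] at h
    rcases Nat.lt_or_ge s (t + c) with h3 | h3
    · exact ih h.2.2 h3
    · obtain rfl : s = t + c := by omega
      exact ⟨h.1, h.2.1⟩

theorem l9_spec {ps : List Q} {E : List ℕ} {a w t c : ℕ} (h : l9 ps E a w t c = true) (s : ℕ)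
    (h1 : t ≤ s) (h2 : s < t + c) : okX ps E a w (18 * s + 9) = true := by
  induction c with
  | zero => omega
  | succ c ih =>
    rw [l9, Bool.and_eq_true] at h
    rcases Nat.lt_or_ge s (t + c) with h3 | h3
    · exact ih h.2 h3
    · obtain rfl : s = t + c := by omega
      exact h.1

theorem okX_sound {ps : List Q} {B P a k w : ℕ} {E : List ℕ} (hw : 2 ^ a = w) (hl : Lst ps B P)
    (ha : 2 ≤ a) (hk : ¬ 2 ∣ k) (hkB : k < B) (h : okX ps E a w k = true)
    (hP : 2 * (2 ^ a * k) < P * (P + 1) ^ 2) (h3 : ¬ 3 ∣ k ∨ 9 ∣ k) (r : ℕ) (hr : r.Prime)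
    (h1 : r ∣ 2 ^ a * k) (h2 : ¬ r * r ∣ 2 ^ a * k) :
    (∃ e ∈ E, e ∣ 2 ^ a * k) ∨ NG (2 ^ a * k) := by
  unfold okX at h
  rw [Bool.or_eq_true] at h
  rcases h with h | h
  · obtain ⟨e, he, h4⟩ := List.any_eq_true.1 h
    rw [Nat.beq_eq, ← hw] at h4
    exact Or.inl ⟨e, he, Nat.dvd_of_mod_eq_zero h4⟩
  · exact Or.inr (okG_sound hl ha hk hkB h hP h3 r hr h1 h2)

/-- the numbers `k` coprime to `6` or odd and divisible by `9` -/
theorem split69 (k : ℕ) (h2 : ¬ 2 ∣ k) (h3 : ¬ 3 ∣ k ∨ 9 ∣ k) :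
    (∃ t, k = 6 * t + 1) ∨ (∃ t, k = 6 * t + 5) ∨ ∃ t, k = 18 * t + 9 := by
  rcases h3 with h3 | h3
  · have h4 : k % 6 = 1 ∨ k % 6 = 5 := by omega
    rcases h4 with h4 | h4
    · exact Or.inl ⟨k / 6, by omega⟩
    · exact Or.inr (Or.inl ⟨k / 6, by omega⟩)
  · exact Or.inr (Or.inr ⟨k / 18, by omega⟩)

/-- a number which is divisible by `4` -/
theorem exact3 (a k : ℕ) (h3 : 3 ∣ k) (h9 : ¬ 9 ∣ k) : NG (2 ^ a * k) := by
  have h3' : Nat.Prime 3 := Nat.prime_three
  refine NG.of h3' (h3.mul_left _) ?_ fun m hm hG => ?_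
  · intro h
    have h4 : Nat.Coprime (3 * 3) (2 ^ a) := Nat.Coprime.pow_right a (by decide)
    exact h9 (h4.dvd_of_dvd_mul_left h)
  · have hm0 : 0 < m := by
      rcases Nat.eq_zero_or_pos m with rfl | h5
      · exfalso
        have hk0 : k = 0 := by
          rcases Nat.eq_zero_or_pos k with h6 | h6
          · exact h6
          · have : 0 < 2 ^ a * k := Nat.mul_pos (Nat.pow_pos (by norm_num)) h6
            omega
        exact h9 (by rw [hk0]; exact dvd_zero 9)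
      · exact h5
    have := (Pool.Agent.Helper52.PN.Gho.bound h3' hm0 hG).1
    omega

end Pool.Agent.Helper79.P2.ED
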