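import Pool.Agent.Helper79.P2.Pow2

/-! # MP_2b6189_al: self-dual invertible objects and the support of `z` -/

set_option autoImplicit false

namespace Pool.Agent.Helper79.P2

open Matrix ComplexConjugate Pool.Agent.Helper94.YF Pool.Agent.Helper94.YG Pool.Agent.Helper89.OS
  Pool.Agent.Helper89.OC Pool.Agent.Helper46.WG Pool.Agent.Helper4.PQS Pool.Agent.Helper42.PQS

variable {I : Type} [Fintype I] [DecidableEq I]

theorem inv_NN (Z : CentreData I) (δ : I) (hδ : Z.d δ = 1) (hδs : Z.st δ = δ) (v : I) :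
    Z.N δ δ v = if v = Z.o then 1 else 0 := by
  have B := Helper1.OC.hGLB I Z
  have h3 := B.N_o δ δ
  rw [hδs, if_pos rfl] at h3
  by_cases hv : v = Z.o
  · rw [if_pos hv, hv, h3]
  · rw [if_neg hv]
    have h2 := B.dim δ δ
    rw [hδ, mul_one, ← Finset.add_sum_erase _ _ (Finset.mem_univ Z.o), h3, Z.d_o] at h2
    have h4 : Z.N δ δ v * Z.d v ≤ ∑ l ∈ Finset.univ.erase Z.o, Z.N δ δ l * Z.d l :=
      Finset.single_le_sum (f := fun l => Z.N δ δ l * Z.d l) (fun _ _ => Nat.zero_le _)
        (Finset.mem_erase.2 ⟨hv, Finset.mem_univ _⟩)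
    have h5 : Z.N δ δ v * Z.d v = 0 := by omega
    rcases Nat.mul_eq_zero.1 h5 with h6 | h6
    · exact h6
    · exact absurd h6 (Z.d_pos v).ne'

/-- The product of `i` with a self-dual invertible object is simple. -/
theorem tens (Z : CentreData I) (i δ : I) (hδ : Z.d δ = 1) (hδs : Z.st δ = δ) :
    ∃ v, (∀ W, Z.N i δ W = if W = v then 1 else 0) ∧ Z.d v = Z.d i ∧
      ∀ k, Cchi Z k v = Cchi Z k i * Cchi Z k δ := by
  have A := Helper36.OC.hGLA I Z
  have B := Helper1.OC.hGLB I Z
  have h1 : ∑ l, Z.N i δ l * Z.N i δ l = 1 := by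
    rw [B.assoc i δ i δ, hδs, Finset.sum_eq_single Z.o]
    · rw [inv_NN Z δ hδ hδs, if_pos rfl, B.N_o, if_pos rfl]
    · intro v _ hv
      rw [inv_NN Z δ hδ hδs, if_neg hv, mul_zero]
    · intro h
      exact absurd (Finset.mem_univ _) h
  obtain ⟨v, hv⟩ : ∃ v, Z.N i δ v ≠ 0 := by
    by_contra h
    push Not at h
    simp only [h, mul_zero, Finset.sum_const_zero] at h1
    exact absurd h1 (by norm_num)
  rw [← Finset.add_sum_erase _ _ (Finset.mem_univ v)] at h1
  have h2 : 1 ≤ Z.N i δ v * Z.N i δ v := Nat.one_le_iff_ne_zero.2 (Nat.mul_ne_zero hv hv)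
  have h3 : ∑ l ∈ Finset.univ.erase v, Z.N i δ l * Z.N i δ l = 0 := by omega
  have h4 : Z.N i δ v * Z.N i δ v = 1 := by omega
  have h5 : Z.N i δ v = 1 := Nat.eq_one_of_mul_eq_one_left h4
  have h6 : ∀ W, Z.N i δ W = if W = v then 1 else 0 := by
    intro W
    by_cases hW : W = v
    · rw [if_pos hW, hW, h5]
    · rw [if_neg hW]
      have h7 := Finset.sum_eq_zero_iff.1 h3 W (Finset.mem_erase.2 ⟨hW, Finset.mem_univ _⟩)
      rcases Nat.mul_eq_zero.1 h7 with h8 | h8 <;> exact h8
  refine ⟨v, h6, ?_, ?_⟩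
  · have h7 := B.dim i δ
    rw [hδ, mul_one] at h7
    rw [h7, Finset.sum_eq_single v]
    · rw [h6, if_pos rfl, one_mul]
    · intro l _ hl
      rw [h6, if_neg hl, zero_mul]
    · intro h
      exact absurd (Finset.mem_univ _) h
  · intro k
    rw [A.chi_mul, Finset.sum_eq_single v]
    · rw [h6, if_pos rfl]
      simp
    · intro l _ hl
      rw [h6, if_neg hl]
      simp
    · intro h
      exact absurd (Finset.mem_univ _) h

/-- An object with `z ≠ 0` (`p = 2`) centralises the self-dual invertible objects. -/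
theorem z_cen (Z : CentreData I) (a : ℕ) (ha : 1 ≤ a) (b : ZMod Z.L) (hI : Idp Z.L 2 a b)
    (δ i : I) (hd : Z.d δ = 1) (hst : Z.st δ = δ) (hz : Z.rho (s2 (1 - b)) i Z.o ≠ 0) :
    Sf Z i δ = Z.d i := by
  have hFUS := Helper36.YF.hFUS
  have hDUA := Helper88.YF.hDUA
  obtain ⟨f1, f2, f3, f4, f5, f6, f7, f8, f9, f10, f11⟩ := hFUS hDUA I Z.toCentreRep
  have C := Helper38.OC.hGLC Helper36.OC.hGLA Helper1.OC.hGLB I Z
  have B := Helper1.OC.hGLB I Z
  obtain ⟨v, hv, hdv, hchi⟩ := tens Z i δ hd hst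
  -- entries of `rho (Lo (1 - b))`
  have hlo : Z.rho (Lo (1 - b)) i Z.o ≠ 0 := by
    intro h0
    apply hz
    unfold s2
    rw [map_mul, map_mul, f1, Matrix.mul_diagonal, Matrix.diagonal_mul, h0]
    simp
  -- `N v δ l = [l = i]`
  obtain ⟨v', hv', -, hchi'⟩ := tens Z v δ hd hst
  have hvi : v' = i := by
    have h1 := B.N_o
    -- the characters of `v'` and `i` are the same
    have A := Helper36.OC.hGLA I Z
    have h2 : ∀ k, Cchi Z k v' = Cchi Z k i := by
      intro k
      rw [hchi', hchi, mul_assoc]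
      have h3 : Cchi Z k δ * Cchi Z k δ = 1 := by
        rw [A.chi_mul, Finset.sum_eq_single Z.o]
        · rw [inv_NN Z δ hd hst, if_pos rfl, A.chi_o]
          simp
        · intro l _ hl
          rw [inv_NN Z δ hd hst, if_neg hl]
          simp
        · intro h
          exact absurd (Finset.mem_univ _) h
      rw [h3, mul_one]
    by_contra hne
    have h3 := cbe_orth0 Z v' i
    rw [if_neg hne] at h3
    have h4 : ∀ l, Sf Z v' l = Sf Z i l := by
      intro l
      rw [cbe_symm, A.Sf_chi, h2, ← A.Sf_chi, cbe_symm]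
    have h5 := cbe_orth0 Z i i
    rw [if_pos rfl] at h5
    simp only [h4] at h3
    rw [h5] at h3
    exact cbe_n Z (pow_eq_zero_iff (two_ne_zero)|>.1 h3)
  have h1 : Z.rho (Lo (1 - b)) v δ = Z.rho (Lo (1 - b)) i Z.o := by
    rw [f8, hst, Finset.sum_eq_single i]
    · rw [hv', hvi, if_pos rfl]
      simp
    · intro l _ hl
      rw [hv', hvi, if_neg hl]
      simp
    · intro h
      exact absurd (Finset.mem_univ _) h
  -- commutation with `U b`
  have hb := hI.idem
  have hcomm : (U b * Lo (1 - b) : SL Z.L) = Lo (1 - b) * U b := by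
    have h0 : b * (1 - b) = 0 := by linear_combination (-1 : ZMod Z.L) * hb
    have h0' : (1 - b) * b = 0 := by linear_combination (-1 : ZMod Z.L) * hb
    apply Subtype.ext
    change (!![1, b; 0, 1] : Matrix (Fin 2) (Fin 2) (ZMod Z.L)) * !![1, 0; 1 - b, 1] =
      !![1, 0; 1 - b, 1] * !![1, b; 0, 1]
    ext x y
    fin_cases x <;> fin_cases y <;> simp [Matrix.mul_apply, Fin.sum_univ_two, h0, h0']
  have ht : ∀ x y, Z.rho (Lo (1 - b)) x y ≠ 0 → Z.tw b x = Z.tw b y := by
    intro x y hxy
    have h := congrArg (fun M => Z.rho M x y) hcomm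
    simp only [map_mul, f1, Matrix.diagonal_mul, Matrix.mul_diagonal] at h
    exact mul_right_cancel₀ hxy (by rw [h, mul_comm])
  have hti : Z.tw b i = 1 := by rw [ht i Z.o hlo, f6]
  have htv : Z.tw b v = Z.tw b δ := ht v δ (by rw [h1]; exact hlo)
  -- balancing
  rcases inv_pm Z i δ hd hst with h2 | h2
  · exact h2
  · exfalso
    have h3 := C.twist i δ
    rw [hst, Finset.sum_eq_single v] at h3
    · rw [hv, if_pos rfl, hdv, h2] at h3
      have hdi : (Z.d i : ℂ) ≠ 0 := by exact_mod_cast (Z.d_pos i).ne'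
      have h4 : Z.th v = -(Z.th i * Z.th δ) := by
        apply mul_right_cancel₀ hdi
        push_cast at h3
        linear_combination (-1 : ℂ) * h3
      -- the power `b.val` is odd
      have hodd : Odd b.val := by
        obtain ⟨L', hL, hL', hLb⟩ := hI.ex
        have : NeZero Z.L := ⟨Z.L_pos.ne'⟩
        have hlt := ZMod.val_lt b
        have h5 : (((L' * (Z.L + 1 - b.val) : ℕ)) : ZMod Z.L) = 0 := by
          have h6 : ((Z.L + 1 - b.val : ℕ) : ZMod Z.L) = 1 - b := by
            rw [Nat.cast_sub (by omega)]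
            push_cast
            rw [ZMod.natCast_self, ZMod.natCast_zmod_val, zero_add]
          rw [Nat.cast_mul, h6, hLb]
        rw [ZMod.natCast_eq_zero_iff] at h5
        have h6 : 2 ^ a ∣ Z.L + 1 - b.val := by
          have h7 : L' * 2 ^ a ∣ L' * (Z.L + 1 - b.val) := by
            rw [mul_comm L' (2 ^ a), ← hL]
            exact h5
          have hL0 : 0 < L' := by
            rcases Nat.eq_zero_or_pos L' with h8 | h8
            · exact absurd (h8 ▸ dvd_zero 2) hL'
            · exact h8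
          exact Nat.dvd_of_mul_dvd_mul_left hL0 h7
        have h7 : 2 ∣ 2 ^ a := dvd_pow_self 2 (by omega)
        have h8 : 2 ∣ Z.L := by
          rw [hL]
          exact h7.mul_right L'
        have h9 := h7.trans h6
        rw [Nat.odd_iff]
        omega
      have h5 : Z.tw b v = -(Z.tw b i * Z.tw b δ) := by
        unfold CentreRep.tw
        rw [h4, hodd.neg_pow, mul_pow]
      rw [hti, one_mul, htv] at h5
      have h6 : Z.tw b δ ≠ 0 := by
        intro h7
        have h8 := f7 b δ
        rw [h7, mul_zero] at h8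
        exact absurd h8 (by norm_num)
      have h7 : (2 : ℂ) * Z.tw b δ = 0 := by linear_combination h5
      rcases mul_eq_zero.1 h7 with h8 | h8
      · norm_num at h8
      · exact h6 h8
    · intro l _ hl
      rw [hv, if_neg hl]
      simp
    · intro h
      exact absurd (Finset.mem_univ _) h

end Pool.Agent.Helper79.P2
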