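import Pool.Agent.Helper42.PQS.M_CBE
import Pool.Agent.Helper36.PQS.M_PPW
import Pool.Agent.Helper55.PQS.M_TNS
import Pool.Agent.Helper10.PQS.M_G2E
import Pool.Agent.Helper94.AL.Even

/-! # MP_2b6189_al: dimension a power of `2` -/

set_option autoImplicit false

namespace Pool.Agent.Helper79.P2

open Matrix ComplexConjugate Pool.Agent.Helper94.YF Pool.Agent.Helper94.YG Pool.Agent.Helper89.OS
  Pool.Agent.Helper89.OC Pool.Agent.Helper46.WG Pool.Agent.Helper4.PQS Pool.Agent.Helper42.PQS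

variable {I : Type} [Fintype I] [DecidableEq I]

/-- If there is an object of prime power dimension and no Tannakian set then there is a fermion which no
object of prime power dimension and twist `1` centralises. -/
theorem fermion_of_pp (Z : CentreData I) (hT : ¬ ∃ D : I → Prop, TanSet Z D) (k0 : I)
    (h0 : IsPrimePow (Z.d k0)) : ∃ δ, Z.d δ = 1 ∧ δ ≠ Z.o ∧ Z.st δ = δ ∧ Z.th δ = -1 ∧
      ∀ k, IsPrimePow (Z.d k) → Z.th k = 1 → Sf Z k δ ≠ Z.d k := by
  have hTN := Helper55.PQS.hTNS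
  have hP := Helper36.PQS.hPPW
  by_cases hN : (MZ Z).NoSym
  · exact absurd h0 (hP hTN I (MZ Z) hN k0)
  · unfold IntegralModularDatum.NoSym at hN
    push Not at hN
    obtain ⟨F, hF, hS, h1⟩ := hN
    rcases IntegralModularDatum.tannakian_or_fermion (cbe_twist Z) hF hS h1 with
      h2 | ⟨δ, hd, hδ0, hdual, hs, hthδ⟩
    · exact absurd (cbe_tan Z h2) hT
    · refine ⟨δ, hd, hδ0, hdual, hthδ, fun k hk hth hδ => hT ?_⟩
      have hf : (MZ Z).IsFermion Z.th δ := ⟨cbe_twist Z, hd, hδ0, hdual, hs, hthδ⟩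
      have hkB : k ∈ (MZ Z).cent {(MZ Z).unit, δ} := by
        rw [IntegralModularDatum.mem_B hf]
        show conj (Sf Z k δ) = (Z.d k : ℂ)
        rw [hδ, Complex.conj_natCast]
      have hkR : k ∈ IntegralModularDatum.RR hf :=
        (IntegralModularDatum.mem_RR hf).2 ⟨hkB, by rw [hth]; exact upper_one⟩
      by_cases hQ : (IntegralModularDatum.quot hf).NoSym
      · exact absurd hk (hP hTN _ (IntegralModularDatum.quot hf) hQ ⟨k, hkR⟩)
      · unfold IntegralModularDatum.NoSym at hQ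
        push Not at hQ
        obtain ⟨K, hK, hKS, hK1⟩ := hQ
        exact cbe_tan Z (IntegralModularDatum.tannakian_of_quot hf hK hKS hK1)

/-- The dimensions divide `n`. -/
theorem d_dvd_n (Z : CentreData I) (i : I) : Z.d i ∣ Z.n := by
  have h1 := Helper2.YF.hNRM I Z.toCentreRep 1 i i
  rw [map_one, Matrix.one_apply_eq, map_one, mul_one, mul_one, ← div_pow] at h1
  have h2 : IsIntegral ℤ ((Z.n : ℂ) / (Z.d i : ℂ)) := IsIntegral.of_pow (by norm_num) h1
  have h3 : (((Z.n : ℚ) / (Z.d i : ℚ) : ℚ) : ℂ) = (Z.n : ℂ) / (Z.d i : ℂ) := by push_cast; rfl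
  rw [← h3] at h2
  obtain ⟨m, hm⟩ := hRAT'.2 _ h2
  have hd : (Z.d i : ℚ) ≠ 0 := by exact_mod_cast (Z.d_pos i).ne'
  have h4 : ((Z.n : ℤ) : ℚ) = ((Z.d i : ℤ) : ℚ) * (m : ℚ) := by
    rw [hm]
    push_cast
    field_simp
  have h5 : (Z.n : ℤ) = (Z.d i : ℤ) * m := by exact_mod_cast h4
  have h6 : (Z.d i : ℤ) ∣ (Z.n : ℤ) := ⟨m, h5⟩
  exact_mod_cast h6

/-- The Lagrangian algebra has twist `1`. -/
theorem kap_th (Z : CentreData I) (i : I) (hi : Z.kap i ≠ 0) : Z.th i = 1 := by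
  have h := Z.kap_inv (U 1) i
  rw [Z.rho_T] at h
  have h2 : ∑ j, (Matrix.diagonal Z.th : Matrix I I ℂ) i j * (Z.kap j : ℂ) = Z.th i * Z.kap i := by
    rw [Finset.sum_eq_single i]
    · rw [Matrix.diagonal_apply_eq]
    · intro j _ hj
      rw [Matrix.diagonal_apply_ne _ (Ne.symm hj), zero_mul]
    · intro h3
      exact absurd (Finset.mem_univ _) h3
  rw [h2] at h
  have h3 : (Z.kap i : ℂ) ≠ 0 := by exact_mod_cast hi
  exact mul_right_cancel₀ h3 (by rw [h, one_mul])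

/-- The sum of the dimensions with the multiplicities of the Lagrangian algebra. -/
theorem kap_S (Z : CentreData I) (i : I) :
    ∑ j, Sf Z i j * (Z.kap j : ℂ) = (Z.n : ℂ) * Z.kap i := by
  rw [← Z.kap_inv Sm i, Finset.mul_sum]
  refine Finset.sum_congr rfl fun j _ => ?_
  unfold Sf
  ring

/-- A self-dual invertible object centralises or anticentralises. -/
theorem inv_pm (Z : CentreData I) (k δ : I) (hδ : Z.d δ = 1) (hδs : Z.st δ = δ) :
    Sf Z k δ = Z.d k ∨ Sf Z k δ = -(Z.d k : ℂ) := by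
  have A := Helper36.OC.hGLA I Z
  have B := Helper1.OC.hGLB I Z
  have h1 : ∀ v, v ≠ Z.o → Z.N δ δ v = 0 := by
    intro v hv
    have h2 := B.dim δ δ
    rw [hδ, mul_one, ← Finset.add_sum_erase _ _ (Finset.mem_univ Z.o)] at h2
    have h3 := B.N_o δ δ
    rw [hδs, if_pos rfl] at h3
    rw [h3, Z.d_o] at h2
    have h4 : Z.N δ δ v * Z.d v ≤ ∑ l ∈ Finset.univ.erase Z.o, Z.N δ δ l * Z.d l :=
      Finset.single_le_sum (f := fun l => Z.N δ δ l * Z.d l) (fun _ _ => Nat.zero_le _)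
        (Finset.mem_erase.2 ⟨hv, Finset.mem_univ _⟩)
    have h5 : Z.N δ δ v * Z.d v = 0 := by omega
    rcases Nat.mul_eq_zero.1 h5 with h6 | h6
    · exact h6
    · exact absurd h6 (Z.d_pos v).ne'
  have h2 : Cchi Z k δ * Cchi Z k δ = 1 := by
    rw [A.chi_mul, Finset.sum_eq_single Z.o]
    · have h3 := B.N_o δ δ
      rw [hδs, if_pos rfl] at h3
      rw [h3, A.chi_o]
      simp
    · intro v _ hv
      rw [h1 v hv]
      simp
    · intro h
      exact absurd (Finset.mem_univ _) h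
  have h3 : (Cchi Z k δ - 1) * (Cchi Z k δ + 1) = 0 := by linear_combination h2
  rw [A.Sf_chi]
  rcases mul_eq_zero.1 h3 with h4 | h4
  · left
    rw [sub_eq_zero.1 h4, mul_one]
  · right
    rw [eq_neg_of_add_eq_zero_left h4]
    ring

/-- **Theorem.**  Dimension a power of `2`. -/
theorem pow2 (Z : CentreData I) (c : ℕ) (hn : Z.n = 2 ^ (c + 1)) : ∃ D : I → Prop, TanSet Z D := by
  rcases Nat.eq_zero_or_pos c with rfl | hc
  · exact Helper94.AL.even_tan I Z 1 (by rw [hn]; norm_num) (by decide)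
  by_contra hT
  have hn4 : 4 ≤ Z.n := by
    rw [hn]
    calc 4 = 2 ^ (1 + 1) := by norm_num
      _ ≤ 2 ^ (c + 1) := Nat.pow_le_pow_right (by norm_num) (by omega)
  have hn0 : (Z.n : ℂ) ≠ 0 := cbe_n Z
  -- dimensions of the objects of the Lagrangian algebra
  have hpp : ∀ j, j ≠ Z.o → Z.kap j ≠ 0 → IsPrimePow (Z.d j) := by
    intro j hj hk
    have h1 := d_dvd_n Z j
    rw [hn] at h1
    obtain ⟨e, -, he⟩ := (Nat.dvd_prime_pow Nat.prime_two).1 h1
    rcases Nat.eq_zero_or_pos e with h0 | h0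
    · exfalso
      apply hT
      refine Helper10.PQS.hG2E I Z ⟨j, hj, ?_, kap_th Z j hk⟩
      rw [he, h0, pow_zero]
    · rw [he]
      exact Nat.prime_two.isPrimePow.pow h0.ne'
  have hsum := kap_S Z Z.o
  rw [Z.kap_o, Nat.cast_one, mul_one] at hsum
  have hsum' : (∑ j, Z.d j * Z.kap j : ℕ) = Z.n := by
    have h1 : ((∑ j, Z.d j * Z.kap j : ℕ) : ℂ) = (Z.n : ℂ) := by
      rw [← hsum]
      push_cast
      exact Finset.sum_congr rfl fun j _ => by rw [cbe_o]
    exact_mod_cast h1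
  have hex : ∃ j, j ≠ Z.o ∧ Z.kap j ≠ 0 := by
    by_contra h
    push Not at h
    rw [Finset.sum_eq_single Z.o (fun j _ hj => by rw [h j hj, mul_zero])
      (fun h3 => absurd (Finset.mem_univ _) h3), Z.d_o, Z.kap_o] at hsum'
    omega
  obtain ⟨k0, hk0, hk1⟩ := hex
  obtain ⟨δ, hd, hδ0, hdual, hth, hall⟩ := fermion_of_pp Z hT k0 (hpp k0 hk0 hk1)
  have hkδ : Z.kap δ = 0 := by
    by_contra h
    have h1 := kap_th Z δ h
    rw [hth] at h1
    norm_num at h1
  have h1 := kap_S Z δ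
  rw [hkδ, Nat.cast_zero, mul_zero] at h1
  have h2 : ∀ j, j ≠ Z.o → Sf Z δ j * (Z.kap j : ℂ) = -((Z.d j : ℂ) * Z.kap j) := by
    intro j hj
    by_cases hk : Z.kap j = 0
    · rw [hk]
      simp
    · have h3 := hall j (hpp j hj hk) (kap_th Z j hk)
      rcases inv_pm Z j δ hd hdual with h4 | h4
      · exact absurd h4 h3
      · rw [cbe_symm, h4]
        ring
  rw [← Finset.add_sum_erase _ _ (Finset.mem_univ Z.o),
    Finset.sum_congr rfl (fun j hj => h2 j (Finset.ne_of_mem_erase hj)), Finset.sum_neg_distrib,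
    Z.kap_o, Nat.cast_one, mul_one, cbe_symm, cbe_o, hd, Nat.cast_one] at h1
  have h5 : ∑ j ∈ Finset.univ.erase Z.o, (Z.d j : ℂ) * Z.kap j = (Z.n : ℂ) - 1 := by
    rw [← hsum', ← Finset.add_sum_erase _ _ (Finset.mem_univ Z.o), Z.d_o, Z.kap_o]
    push_cast
    ring
  rw [h5] at h1
  have h6 : (Z.n : ℂ) = ((2 : ℕ) : ℂ) := by
    push_cast
    linear_combination (-1 : ℂ) * h1
  have h7 : Z.n = 2 := by exact_mod_cast h6
  omega

end Pool.Agent.Helper79.P2
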