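import Pool.Agent.Helper79.AL.Once3
import Pool.Agent.Helper79.P2.TwoAll
import Pool.Agent.Helper89.P2.K2
import Pool.Agent.Helper52.P2.Arith

/-! # MP_2b6189_al: all dimensions below `5400` -/

set_option autoImplicit false

namespace Pool.Agent.Helper79.P2

open Pool.Agent.Helper94.YF Pool.Agent.Helper94.YG
open Pool.Agent.Helper89.OC (TanSet)

variable {I : Type} [Fintype I] [DecidableEq I]

/-- **Theorem.**  All dimensions `1 < n < 5400`. -/
theorem below (Z : CentreData I) (h1 : 1 < Z.n) (h2 : Z.n < 5400) : ∃ D : I → Prop, TanSet Z D := by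
  rcases Helper52.P2.arith Z.n h1 h2 with ⟨p, hp, hpn, hpp⟩ | ⟨c, hc⟩ |
    ⟨p, q, k, m, hp, hp2, -, hk, hn, hpm, hm⟩ |
    ⟨p, q, r, m, hp, hq, hr, hn, hpm, hqp, hrp, -, hm, h3, h4, h5⟩
  · by_contra hT
    obtain ⟨m, hm⟩ := hpn
    have hpm : ¬ p ∣ m := by
      rintro ⟨c, rfl⟩
      exact hpp ⟨c, by rw [hm, mul_assoc]⟩
    have := Pool.Agent.Helper79.AL.bound I Z p m hp hm hpm hT
    omega
  · exact pow2 Z c hc
  · exact two Z p k m q hp hp2 hk hn hpm hm
  · exact Helper89.P2.k2 Z p m q r hp hq hr hn hpm hm hqp hrp h3 h4 h5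

end Pool.Agent.Helper79.P2
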