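import Pool.Agent.Helper79.P2.Ferm
import Pool.Agent.Helper94.P2.Blk

/-! # MP_2b6189_al: a prime power `P = p ^ k` which divides `n` exactly, `p` odd, and `n / P` a prime power -/

set_option autoImplicit false

namespace Pool.Agent.Helper79.P2

open Matrix ComplexConjugate Pool.Agent.Helper94.YF Pool.Agent.Helper94.YG
open Pool.Agent.Helper89.OS (PI Idp Cchi)
open Pool.Agent.Helper89.OC (TanSet Sf)
open Pool.Agent.Helper89.P2

variable {I : Type} [Fintype I] [DecidableEq I] {p a P : ℕ}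

/-- An object of the principal block centralises the self-dual invertible objects (`p` odd). -/
theorem inv_cenK (Z : CentreData I) (X : PK I p a P) (Q : ℂ → Prop) (hB : BK X Q) (hp2 : p ≠ 2)
    (hd : X.d = Z.d) (hchi : X.chi = Cchi Z) (k : I) (hk : X.y k ≠ 0) (δ : I) (hδ : Z.d δ = 1)
    (hδs : Z.st δ = δ) : Sf Z k δ = Z.d k := by
  rcases inv_pm Z k δ hδ hδs with h | h
  · exact h
  · exfalso
    have A := Helper36.OC.hGLA I Z
    rw [A.Sf_chi] at h
    have hdk : (Z.d k : ℂ) ≠ 0 := by exact_mod_cast (Z.d_pos k).ne'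
    have h4 : Cchi Z k δ = -1 := by
      apply mul_left_cancel₀ hdk
      rw [h]
      ring
    have h5 := hB.mem k hk δ
    rw [hchi, hd, hδ, h4] at h5
    have h6 : Q ((-2 : ℤ) : ℂ) := by
      have h7 : ((-2 : ℤ) : ℂ) = -1 - ((1 : ℕ) : ℂ) := by
        push_cast
        ring
      rw [h7]
      exact h5
    have h7 := (hB.pi.int_iff _).1 h6
    rw [dvd_neg] at h7
    have h8 : p ∣ 2 := by exact_mod_cast h7
    exact hp2 ((Nat.prime_dvd_prime_iff_eq X.prime Nat.prime_two).1 h8)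

/-- Without a Tannakian set the dimensions of the objects of the principal block of twist `1` are not `1` and no
prime powers (`p` odd). -/
theorem noK (Z : CentreData I) (hT : ¬ ∃ D : I → Prop, TanSet Z D) (X : PK I p a P) (Q : ℂ → Prop)
    (hB : BK X Q) (hp2 : p ≠ 2) (ho : X.o = Z.o) (hd : X.d = Z.d) (hth : X.th = Z.th)
    (hchi : X.chi = Cchi Z) (k : I) (hk : X.y k ≠ 0) (ht : X.t k = 1) (hko : k ≠ X.o) :
    X.d k ≠ 1 ∧ ¬ IsPrimePow (X.d k) := by
  have hthk : Z.th k = 1 := by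
    rw [← hth]
    exact X.th_of k hk ht
  refine ⟨fun h => hT ?_, fun h => hT ?_⟩
  · exact Helper10.PQS.hG2E I Z ⟨k, by rwa [← ho], by rw [← hd]; exact h, hthk⟩
  · exact Helper42.PQS.hCBE Helper55.PQS.hTNS Helper36.PQS.hPPW I Z k (by rw [← hd]; exact h) hthk
      fun δ h1 h2 => inv_cenK Z X Q hB hp2 hd hchi k hk δ h1 h2

/-- `p` divides the dimension of an object of the block only if it divides `y`. -/
theorem d_nd_of (X : PK I p a P) (Q : ℂ → Prop) (hB : BK X Q) (i : I) (hi : ¬ (p : ℤ) ∣ X.y i) :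
    ¬ p ∣ X.d i := by
  intro h
  have hy : X.y i ≠ 0 := by
    rintro h0
    exact hi (h0 ▸ dvd_zero _)
  obtain ⟨c, -, hc⟩ := hB.val i hy
  have hpp : Prime (p : ℤ) := Nat.prime_iff_prime_int.1 X.prime
  have h1 : (p : ℤ) ∣ (X.m : ℤ) ^ 2 * X.y i := by
    rw [hc]
    exact Dvd.dvd.mul_right (Int.natCast_dvd_natCast.2 h) c
  rcases hpp.dvd_or_dvd h1 with h2 | h2
  · have h3 := hpp.dvd_of_dvd_pow h2
    exact X.cop (Int.natCast_dvd_natCast.1 h3)
  · exact hi h2

/-- There is an object of twist `1` in the block, not the unit, with `y` prime to `p`. -/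
theorem exK (X : PK I p a P) (Q : ℂ → Prop) (hB : BK X Q) :
    ∃ i, i ≠ X.o ∧ X.t i = 1 ∧ ¬ (p : ℤ) ∣ X.y i := by
  by_contra h
  push Not at h
  apply hB.x_nd
  have h1 := X.kap_y
  rw [← Finset.add_sum_erase _ _ (Finset.mem_univ X.o), X.kap_o, Nat.cast_one, mul_one] at h1
  have h2 : (p : ℤ) ∣ ∑ i ∈ Finset.univ.erase X.o, X.y i * (X.kap i : ℤ) := by
    refine Finset.dvd_sum fun i hi => ?_
    by_cases hk : X.kap i = 0
    · rw [hk]
      simp
    · exact Dvd.dvd.mul_right (h i (Finset.ne_of_mem_erase hi) (X.kap_t i hk)) _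
  have h3 : (p : ℤ) ∣ (P : ℤ) := by
    rw [X.P_eq]
    push_cast
    exact dvd_pow_self _ (by have := X.k_pos; omega)
  have h4 : X.y X.o = P - ∑ i ∈ Finset.univ.erase X.o, X.y i * (X.kap i : ℤ) := by linarith
  rw [h4]
  exact dvd_sub h3 h2

/-- **Theorem.**  `n = P m`, `p` odd, all prime divisors of `m` are equal to `q`. -/
theorem twoK (Z : CentreData I) (hT : ¬ ∃ D : I → Prop, TanSet Z D) (X : PK I p a P)
    (hp2 : p ≠ 2) (ho : X.o = Z.o) (hd : X.d = Z.d) (hth : X.th = Z.th)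
    (hchi : X.chi = Cchi Z) (q : ℕ) (hq : ∀ l : ℕ, l.Prime → l ∣ X.m → l = q) : False := by
  obtain ⟨Q, hQ⟩ := Helper66.OS.hPID hRAT' p X.prime
  have hB := Helper94.P2.hBK hRAT' X Q hQ
  obtain ⟨i, hi, ht, hy⟩ := exK X Q hB
  have hnd := d_nd_of X Q hB i hy
  have hy0 : X.y i ≠ 0 := by
    rintro h0
    exact hy (h0 ▸ dvd_zero _)
  obtain ⟨h1, h2⟩ := noK Z hT X Q hB hp2 ho hd hth hchi i hy0 ht hi
  have hdm : X.d i ∣ X.m := by
    have h3 : Nat.Coprime (X.d i) P := by
      have h4 := Nat.Coprime.pow_right X.k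
        ((Nat.Prime.coprime_iff_not_dvd X.prime).2 hnd).symm
      rwa [← X.P_eq] at h4
    exact h3.dvd_of_dvd_mul_left (X.d_dvd i)
  -- a number all of whose prime divisors are equal is a prime power
  have h4 : ∃ l, l.Prime ∧ l ∣ X.d i := Nat.exists_prime_and_dvd h1
  obtain ⟨l, hl, hld⟩ := h4
  have hlq := hq l hl (hld.trans hdm)
  subst hlq
  apply h2
  have h5 : X.d i = l ^ (X.d i).primeFactorsList.length := by
    refine Nat.eq_prime_pow_of_unique_prime_dvd (X.d_pos i).ne' ?_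
    intro r hr hrd
    exact hq r hr (hrd.trans hdm)
  rw [h5]
  refine hl.isPrimePow.pow ?_
  intro h6
  rw [h6, pow_zero] at h5
  exact h1 h5

end Pool.Agent.Helper79.P2
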